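import Pool.Agent.Helper65.OH.Defs
import Mathlib.Analysis.SpecialFunctions.Pow.Real

/-!
# Machines with reading heads on a memory of arrays: definitions
-/

namespace Pool.Agent.Helper65.BR

open Pool.Agent.Helper65.LinSpace Pool.Agent.Helper78.Mpc Pool.Agent.Helper28.Ram
open Pool.Agent.Helper65.OH (letW)

/-- A machine with `K` reading heads on one memory, which consists of arrays. The memory has a cell
`(u, z)` for every word `u`, the name of the array, and every number `z`; the contents of the cells and
the states are words. In the state `q` the head number `i` is on the cell `(u, z)` with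
`u = arr (⟨i⟩ q)`, and `z` is written in binary as `pos (⟨i⟩ q)`. In one step the machine in the state
`q` reads the letters `a` and `b` of the input word and of the additional word whose index is written in
binary as `addr q`, and the contents `v₁, …, v_K` of the cells on which its heads are. Its new state is
`q' = next (⟨q⟩ a b ⟨v₁⟩ … ⟨v_K⟩)`. At the same time every cell `(u, z)` changes its content `c` to
`write (⟨q'⟩ ⟨u⟩ ⟨z⟩ c)`. Here `⟨q⟩` is the self-delimiting code of `q`. At the start all cells are empty.
All functions are computed in linear space. -/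
structure Reader (K : ℕ) where
  start : List Bool
  addr : List Bool → List Bool
  arr : List Bool → List Bool
  pos : List Bool → List Bool
  next : List Bool → List Bool
  write : List Bool → List Bool
  addr_lin : LinComp addr
  arr_lin : LinComp arr
  pos_lin : LinComp pos
  next_lin : LinComp next
  write_lin : LinComp write

namespace Reader

variable {K : ℕ} (A : Reader K)

/-- The cell on which the head number `i` is in the state `q`. -/
def cell (q : List Bool) (i : Fin K) : List Bool × ℕ :=
  (A.arr (sd (i : ℕ).bits ++ q), bval (A.pos (sd (i : ℕ).bits ++ q)))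

/-- The word which the function `next` gets if the heads read the words `v i`. -/
def inp (w y : List Bool) (q : List Bool) (v : Fin K → List Bool) : List Bool :=
  sd q ++ (letW w[bval (A.addr q)]? ++ (letW y[bval (A.addr q)]? ++
    (List.finRange K).flatMap fun i => sd (v i)))

/-- The new state. -/
def nx (w y : List Bool) (c : List Bool × (List Bool → ℕ → List Bool)) : List Bool :=
  A.next (A.inp w y c.1 fun i => c.2 (A.cell c.1 i).1 (A.cell c.1 i).2)

/-- One step on the input word `w` and the additional word `y`. -/
def step (w y : List Bool) (c : List Bool × (List Bool → ℕ → List Bool)) :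
    List Bool × (List Bool → ℕ → List Bool) :=
  (A.nx w y c, fun u z => A.write (sd (A.nx w y c) ++ (sd u ++ (sd z.bits ++ c.2 u z))))

/-- The state and the contents of the cells after `t` steps. -/
def conf (A : Reader K) (w y : List Bool) : ℕ → List Bool × (List Bool → ℕ → List Bool)
  | 0 => (A.start, fun _ _ => [])
  | t + 1 => A.step w y (A.conf w y t)

/-- The first letter of the state after `r` steps is `1`. -/
def AcceptsAt (w y : List Bool) (r : ℕ) : Prop := (A.conf w y r).1.head? = some true

/-- Up to the time `r`, states and addresses have at most `s` bits; the heads are on cells `(u, z)` such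
that `u` has at most `b` bits and `z` is written with at most `b` bits; and the contents of all cells
`(u, z)`, where `u` has at most `b` bits and `z < 2 ^ b`, have at most `a` bits. -/
def Fits (w y : List Bool) (r s b a : ℕ) : Prop :=
  ∀ t ≤ r, (A.conf w y t).1.length ≤ s ∧ (A.addr (A.conf w y t).1).length ≤ s ∧
    (∀ i : Fin K, (A.arr (sd (i : ℕ).bits ++ (A.conf w y t).1)).length ≤ b ∧
      (A.pos (sd (i : ℕ).bits ++ (A.conf w y t).1)).length ≤ b) ∧
    ∀ (u : List Bool) (z : ℕ), u.length ≤ b → z < 2 ^ b → ((A.conf w y t).2 u z).length ≤ a

/-- The number of moves in the first `r` steps: pairs of a time `t` and a head which is, after the time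
`t + 1`, on another cell than after the time `t`. -/
noncomputable def moves (w y : List Bool) (r : ℕ) : ℕ :=
  {z : ℕ × Fin K | z.1 < r ∧
    A.cell (A.conf w y (z.1 + 1)).1 z.2 ≠ A.cell (A.conf w y z.1).1 z.2}.ncard

/-- The cells are equal or neighbours in the same array. -/
def Near (x y : List Bool × ℕ) : Prop := x.1 = y.1 ∧ x.2 ≤ y.2 + 1 ∧ y.2 ≤ x.2 + 1

/-- The number of jumps in the first `r` steps: moves to a cell which is not a neighbour in the same
array. -/
noncomputable def jumps (w y : List Bool) (r : ℕ) : ℕ :=
  {z : ℕ × Fin K | z.1 < r ∧
    ¬ Near (A.cell (A.conf w y (z.1 + 1)).1 z.2) (A.cell (A.conf w y z.1).1 z.2)}.ncard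

/-- The machine accepts the input word `w` of length `n`, with the additional word `y`, at some time
`r`, after `M` moves and `J` jumps, with the following bounds: states and addresses have at most `s`
bits, the names of arrays and the numbers of the cells of the heads at most `b` bits, contents at most
`a` bits. For `l = b + ⌊log₂ n⌋ + 1`: `M (J + n + 1) (a + 1) l ^ 4 ≤ C (n + 1) ^ 3` and
`(s + a + l) l ^ 4 ≤ C (n + 1)`. The time is not bounded. -/
def Within (C : ℝ) (w y : List Bool) : Prop :=
  ∃ r s b a : ℕ, A.AcceptsAt w y r ∧ A.Fits w y r s b a ∧
    (A.moves w y r : ℝ) * ((A.jumps w y r : ℝ) + w.length + 1) * ((a : ℝ) + 1) *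
      ((b : ℝ) + ((Nat.log 2 w.length : ℝ) + 1)) ^ 4 ≤ C * ((w.length : ℝ) + 1) ^ 3 ∧
    ((s : ℝ) + a + ((b : ℝ) + ((Nat.log 2 w.length : ℝ) + 1))) *
      ((b : ℝ) + ((Nat.log 2 w.length : ℝ) + 1)) ^ 4 ≤ C * ((w.length : ℝ) + 1)

end Reader

end Pool.Agent.Helper65.BR
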