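import Pool.Agent.Helper65.BR.Final
import Pool.Agent.Helper14.BR.PPAR
import Pool.Agent.Helper96.BR.PCODE
import Pool.Agent.Helper64.BR.PWRD
import Pool.Agent.Helper40.BR.PASY
import Pool.Agent.Helper39.BR.PLSP
import Pool.Agent.Helper86.BR.PLSK
import Pool.Agent.Helper48.BR.PFIN

/-!
# Machines with a memory of blocks and parallel machines: hardness
-/

namespace Pool.Agent.Helper65.BR

open Pool.Agent.Helper65.LinSpace Pool.Agent.Helper78.Mpc
open Pool.Agent.Helper81.Gen4 (Q Q_mono)
open Pool.Agent.Helper31.Gen5 (Hard q_hard)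

theorem plsk : PLSK_stmt :=
  Pool.Agent.Helper86.BR.plsk Pool.Agent.Helper14.BR.ppar Pool.Agent.Helper39.BR.plsp

theorem pfin : PFIN_stmt :=
  Pool.Agent.Helper48.BR.pfin Pool.Agent.Helper14.BR.ppar Pool.Agent.Helper96.BR.PCODE
    Pool.Agent.Helper64.BR.PWRD Pool.Agent.Helper40.BR.pasy Pool.Agent.Helper69.BR.siz

/-- Machines with a memory of blocks have a code. -/
theorem bm_all (c : ℕ) (A : BM) (C : ℝ) :
    All c (fun w y => ∃ p r, A.AcceptsAt w y p r) (A.Within C) := all_bm fin c A C

/-- Parallel machines have a code. -/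
theorem pm_all (c : ℕ) (A : PM) (C : ℝ) :
    All c (fun w y => ∃ p R k, A.AcceptsAt w y p R k) (A.Within C) := all_pm pfin c A C

/-- **Hardness**, with and without guessed letters. -/
theorem hard (c : ℕ) (hc : 0 < c) :
    ∃ L : Set (List Bool), DLINSPACE L ∧
      ∀ Acc Good : List Bool → List Bool → Prop, SimA c Acc Good →
        Hard L c (fun w α => Q (c * w.length) fun v => Acc w (α ++ v))
          (fun w α => Q (c * w.length) fun v => Good w (α ++ v)) ∧ Hard L c Acc Good :=
  simA_hard lsk plsk c hc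

end Pool.Agent.Helper65.BR
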