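import Pool.Agent.Helper65.BR.Defs
import Pool.Agent.Helper65.RT.Goals
import Pool.Agent.Helper28.Long.Par

/-!
# Machines with a memory of blocks on numbers, and the simulation by parallel machines
-/

namespace Pool.Agent.Helper65.BR

open Pool.Agent.Helper65.LinSpace Pool.Agent.Helper78.Mpc Pool.Agent.Helper28.Ram Finset
open Pool.Agent.Helper65.RT (qT CT)

/-- A machine with a memory of blocks on numbers, and the parameters of the simulation. In one step
the machine in the state `q` reads the content `v` of the block `A q`; its new state is `N q v`, and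
the new content of the block `x` is `W q v x c`, where `c` is the old content. -/
structure Mach where
  /-- states are smaller than `2 ^ s` -/
  s : ℕ
  /-- contents are smaller than `2 ^ a` -/
  a : ℕ
  /-- names of blocks are smaller than `2 ^ ν` -/
  ν : ℕ
  E : ℕ
  G : ℕ
  K : ℕ
  A : ℕ → ℕ
  N : ℕ → ℕ → ℕ
  W : ℕ → ℕ → ℕ → ℕ → ℕ
  q0 : ℕ
  M0 : ℕ → ℕ

/-- The bounds. -/
structure Mach.Ok (m : Mach) : Prop where
  ha : 0 < m.a
  hE : 0 < m.E
  hG : 0 < m.G
  hA : ∀ q, m.A q < 2 ^ m.ν
  hN : ∀ q v, m.N q v < 2 ^ m.s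
  hW : ∀ q v x c, m.W q v x c < 2 ^ m.a
  hq0 : m.q0 < 2 ^ m.s
  hM0 : ∀ x, m.M0 x < 2 ^ m.a

namespace Mach

/-- The state and the contents after `t` steps. -/
def conf (m : Mach) : ℕ → ℕ × (ℕ → ℕ)
  | 0 => (m.q0, m.M0)
  | t + 1 => (m.N (m.conf t).1 ((m.conf t).2 (m.A (m.conf t).1)), fun x =>
      m.W (m.conf t).1 ((m.conf t).2 (m.A (m.conf t).1)) x ((m.conf t).2 x))

variable (m : Mach)

/-! ### The parallel machine

The names are the numbers `2 x`, where `x` is the name of a block, the value being its content; the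
numbers `2 j + 1` with `j < P`, the value being the digit `j` of the state in base `2 ^ a`; and the
number `2 P + 1`, the value being `1` if the first letter of the state is `1` (and the state is not
empty), `0` otherwise. In a phase `R` steps are simulated. The events of a phase are: first the `P`
digits of the state are read, then the own value, then come the `R` reads of the machine. The digest
of an event is the value which is read at this time: for the reads of the machine the content at the
start of the phase is changed according to the steps before. -/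

/-- The number of digits of a state. -/
def P : ℕ := m.s / m.a + 1

/-- The number of steps of a phase. -/
def R : ℕ := m.G * m.E - (m.P + 1)

/-- The number of bits of a name. -/
def σ : ℕ := m.ν + Nat.log 2 m.P + 2

/-- The value read in the step `t` of the phase, as coded by the digests `Z`. -/
def vz (Z t : ℕ) : ℕ := dig (2 ^ m.a) Z (m.P + 1 + t)

/-- The state after `t` steps of the phase. -/
def st (Z t : ℕ) : ℕ := nrec (Z % (2 ^ m.a) ^ m.P) (fun t q => m.N q (m.vz Z t)) t

/-- The content of the block `x` after `t` steps of the phase, `c` being the content at its start. -/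
def ct (Z x c t : ℕ) : ℕ := nrec c (fun t c => m.W (m.st Z t) (m.vz Z t) x c) t

/-- The value of the name `x`, if `q` is the state and `c` the content of the block `x / 2`. -/
def val (x q c : ℕ) : ℕ :=
  ifz (x % 2) c (ifz (lt01 (x / 2) m.P) (accN q) (dig (2 ^ m.a) q (x / 2)))

/-- The name which is read in the event `i`. -/
def qn (x i Z : ℕ) : ℕ :=
  ifz (lt01 i m.P) (ifz (i - m.P) x (2 * m.A (m.st Z (i - m.P - 1)))) (2 * i + 1)

/-- The digest of the event `i`, if the value `v` is read. -/
def dg (i Z v : ℕ) : ℕ :=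
  ifz (le01 i m.P) (m.ct Z (m.A (m.st Z (i - m.P - 1))) v (i - m.P - 1)) v

/-- The parallel machine. -/
def rt : RT.Mach where
  σ := m.σ
  a := m.a
  b := m.a
  E := m.E
  G := m.G
  K := ifz (le01 (m.P + 1) (m.G * m.E)) 0 m.K
  q x i Z := m.qn x i Z % 2 ^ m.σ
  g _ i Z v := m.dg i Z v % 2 ^ m.a
  o x Z := m.val x (m.st Z m.R) (m.ct Z (x / 2) (dig (2 ^ m.a) Z m.P) m.R) % 2 ^ m.a
  t0 x := m.val x m.q0 (m.M0 (x / 2)) % 2 ^ m.a
  root := 2 * m.P + 1

end Mach

/-- A family of machines whose parameters and functions are computed in linear space. -/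
structure LSM {α : Type} [Ctx α] (m : α → Mach) (C : α → ℕ) : Prop where
  s : LS (fun z => (m z).s)
  a : LS (fun z => (m z).a)
  ν : LS (fun z => (m z).ν)
  E : LS (fun z => (m z).E)
  G : LS (fun z => (m z).G)
  K : LS (fun z => (m z).K)
  A : LS (fun z : α × ℕ => (m z.1).A z.2)
  N : LS (fun z : α × ℕ × ℕ => (m z.1).N z.2.1 z.2.2)
  W : LS (fun z : α × ℕ × ℕ × ℕ × ℕ => (m z.1).W z.2.1 z.2.2.1 z.2.2.2.1 z.2.2.2.2)
  q0 : LS (fun z => (m z).q0)
  M0 : LS (fun z : α × ℕ => (m z.1).M0 z.2)
  bd : LS C
  ok : ∀ z, (m z).Ok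
  hs : ∀ z, 2 ^ (m z).s ≤ C z
  ha : ∀ z, 2 ^ (m z).a ≤ C z

/-! ### The machines on numbers of the machines on words

States, names and contents are coded by the numbers of the words; the number `0` stands for failure. -/

/-- The codes of the functions of a machine, the input, and the bounds. -/
structure Prm where
  eS : ℕ
  eA : ℕ
  eB : ℕ
  eN : ℕ
  eW : ℕ
  Λ : ℕ
  β : ℕ
  M : ℕ
  x : ℕ
  y : ℕ
  /-- the length of states and addresses -/
  S : ℕ
  /-- the length of contents -/
  H : ℕ
  /-- the length of names -/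
  Z : ℕ
  E : ℕ
  G : ℕ
  K : ℕ
  /-- the number of the parameter word -/
  p : ℕ

/-- The number of the word `letW`, `c` being the code of the letter. -/
def lwN (c : ℕ) : ℕ := ifz c 4 (ifz (c - 1) 5 7)

/-- The value `bval` of the word with the number `v`. -/
def bvalN (v : ℕ) : ℕ := v - 2 ^ Nat.log 2 v

namespace Prm

variable (P : Prm)

/-- The address of the letters which are read in the state `q`. -/
def adN (q : ℕ) : ℕ := fnN P.eA P.S P.Λ P.β P.M q

/-- The name `blk q`. -/
def blN (q : ℕ) : ℕ := fnN P.eB P.Z P.Λ P.β P.M q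

/-- `1` if a block is read in the state `q`. -/
def rdg (q : ℕ) : ℕ := accN (P.blN q)

/-- The number of the word which the function `next` gets. -/
def inN (q v : ℕ) : ℕ :=
  catN (sdN q) (catN (lwN (letN P.x (bvalN (P.adN q)))) (catN (lwN (letN P.y (bvalN (P.adN q)))) v))

/-- The new state, if `v` is the content of the block which is read. An accepting state does not
change (if it is smaller than `2 ^ (S + 1)`). -/
def nxN (q v : ℕ) : ℕ :=
  ifz (accN q) (ifz (P.adN q) 0 (ifz (P.blN q) 0
    (fnN P.eN P.S P.Λ P.β P.M (P.inN q (ifz (P.rdg q) 1 v))))) (capN P.S q)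

/-- The new content of the block `x`, if `r` is the new state and `c` the old content. -/
def wrN (r x c : ℕ) : ℕ := fnN P.eW P.H P.Λ P.β P.M (catN (sdN r) (catN (sdN x) c))

/-- The name of the block which is read in the state `q`. -/
def rdN (q : ℕ) : ℕ := ifz (P.rdg q) 0 (P.blN q)

/-- One step. -/
def stp (c : ℕ × (ℕ → ℕ)) : ℕ × (ℕ → ℕ) :=
  (P.nxN c.1 (c.2 (P.rdN c.1)), fun x =>
    ifz (accN c.1) (P.wrN (P.nxN c.1 (c.2 (P.rdN c.1))) x (c.2 x)) (c.2 x))

/-- The state at the start. -/
def s0 : ℕ := fnN P.eS P.S P.Λ P.β P.M P.p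

/-- The configuration after `t` steps. -/
def run (P : Prm) : ℕ → ℕ × (ℕ → ℕ)
  | 0 => (P.s0, fun _ => 1)
  | t + 1 => P.stp (P.run t)

/-- Not `0` if a block is read in the state `q`, or the state accepts. -/
def stop (q : ℕ) : ℕ := accN q + P.rdg q

/-- The state after `i` silent steps from the state `q`: steps are made as long as the state does
neither read nor accept. -/
def sil (q i : ℕ) : ℕ := nrec q (fun _ q => ifz (P.stop q) (P.nxN q 1) q) i

/-- The content of the block `x` after `i` silent steps from the state `q`, if it was `c` before. -/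
def wil (q x c i : ℕ) : ℕ :=
  nrec c (fun i c => ifz (P.stop (P.sil q i)) (P.wrN (P.sil q (i + 1)) x c) c) i

/-- The number of silent steps which are made between two reads. -/
def T : ℕ := 2 ^ (P.S + 1)

/-- The machine on numbers: one step consists of a read, followed by silent steps. -/
def mach : Mach where
  s := P.S + 1
  a := P.H + 1
  ν := P.Z + 1
  E := P.E
  G := P.G
  K := P.K
  A := P.rdN
  N q v := P.sil (P.nxN q v) P.T
  W q v x c := capN P.H (P.wil (P.nxN q v) x (ifz (accN q) (P.wrN (P.nxN q v) x c) c) P.T)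
  q0 := P.sil P.s0 P.T
  M0 x := P.wil P.s0 x 1 P.T

end Prm

/-! ### The parameters

The bounds `s`, `a`, `m` are the digits `0`, `1`, `2` of `T`, in base `n + 2`. -/

/-- The bound number `i`. -/
def bT (n T i : ℕ) : ℕ := min (dig (n + 2) T i) (Pool.Agent.Helper28.Long.ZL n)

/-- The bound for the length of names in the simulation. -/
def lT (n T : ℕ) : ℕ := bT n T 2 + ll n + 4

/-- The number of the groups, and the number of the events in a group, if it is admissible. -/
def gT (n T : ℕ) : ℕ := Nat.sqrt (n / lT n T / (4 * (bT n T 1 + 1))) + 1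

/-- The number of phases, if it is admissible. -/
def kT (n T : ℕ) : ℕ := n / lT n T / gT n T

/-- `1` if these numbers are admissible. -/
def oT (n T : ℕ) : ℕ :=
  le01 (gT n T * ((bT n T 1 + 1) * gT n T) + gT n T * (bT n T 1 + 1)) (4 * qT n) *
    (le01 (kT n T * (gT n T + 2)) (4 * qT n) * (le01 ((kT n T + 1) * lT n T) (4 * qT n) *
      le01 ((kT n T + 1) * (lT n T * gT n T)) (4 * (n + 1))))

/-- The parameters for the input `x`, `y`, the bounds coded by `T`, and the parameter word `p`. -/
def prm (e x y T p : ℕ) : Prm where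
  eS := (Nat.unpair (Nat.unpair e).1).1
  eA := (Nat.unpair (Nat.unpair e).1).2
  eB := (Nat.unpair (Nat.unpair e).2).1
  eN := (Nat.unpair (Nat.unpair (Nat.unpair e).2).2).1
  eW := (Nat.unpair (Nat.unpair (Nat.unpair e).2).2).2
  Λ := LW (Nat.log 2 x)
  β := 2 ^ (2 * ll (Nat.log 2 x))
  M := CR x
  x := x
  y := y
  S := bT (Nat.log 2 x) T 0
  H := bT (Nat.log 2 x) T 1
  Z := bT (Nat.log 2 x) T 2
  E := ifz (oT (Nat.log 2 x) T) 1 (gT (Nat.log 2 x) T)
  G := ifz (oT (Nat.log 2 x) T) 1 (gT (Nat.log 2 x) T)
  K := ifz (oT (Nat.log 2 x) T) 0 (kT (Nat.log 2 x) T)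
  p := p

/-- A number which is not `0` if the machine is found to accept for some parameter word. -/
def accF (s : RT.Sim) (e x y T : ℕ) : ℕ :=
  ∑ p ∈ range (2 ^ (bT (Nat.log 2 x) T 0 + 1)), lt01 0 p *
    s.sim (Nat.log 2 x) (prm e x y T p).mach.rt

/-- The number of codes of bounds. -/
def NF (x : ℕ) : ℕ := (Nat.log 2 x + 2) ^ 3

end Pool.Agent.Helper65.BR
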