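import Pool.Agent.Helper65.OH.Defs

/-!
# Machines with a memory of blocks: definitions
-/

namespace Pool.Agent.Helper65.BR

open Pool.Agent.Helper65.LinSpace Pool.Agent.Helper78.Mpc Pool.Agent.Helper28.Ram
open Pool.Agent.Helper65.OH (letW)

/-- A machine with a small internal memory and a large external memory, which consists of blocks. Its
state (the content of the internal memory) is a word; blocks are named by words and contain words. In
one step the machine in the state `q` reads the letters `a` and `b` of the input word and of the
additional word whose index is written in binary as `addr q`, and, if the word `blk q` begins with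
`1`, the content `v` of the block `blk q` (otherwise `v` is the empty word). Its new state is
`q' = next (⟨q⟩ a b v)`, where `⟨q⟩` is the self-delimiting code of `q`. At the same time every block
`x` changes its content `c` to `write (⟨q'⟩ ⟨x⟩ c)`. At the start the state is `start p`, where `p` is a
word, the parameter of the computation, and all blocks are empty. All functions are computed in
linear space. -/
structure BM where
  start : List Bool → List Bool
  addr : List Bool → List Bool
  blk : List Bool → List Bool
  next : List Bool → List Bool
  write : List Bool → List Bool
  start_lin : LinComp start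
  addr_lin : LinComp addr
  blk_lin : LinComp blk
  next_lin : LinComp next
  write_lin : LinComp write

namespace BM

variable (A : BM)

/-- The word which is read from the blocks with the contents `M` in the state `q`. -/
def get (q : List Bool) (M : List Bool → List Bool) : List Bool :=
  if (A.blk q).head? = some true then M (A.blk q) else []

/-- The new state, if the word `v` is read in the state `q`. -/
def nx (w y q v : List Bool) : List Bool :=
  A.next (sd q ++ (letW w[bval (A.addr q)]? ++ (letW y[bval (A.addr q)]? ++ v)))

/-- One step on the input word `w` and the additional word `y`. -/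
def step (w y : List Bool) (c : List Bool × (List Bool → List Bool)) :
    List Bool × (List Bool → List Bool) :=
  (A.nx w y c.1 (A.get c.1 c.2), fun x =>
    A.write (sd (A.nx w y c.1 (A.get c.1 c.2)) ++ (sd x ++ c.2 x)))

/-- The state and the contents of the blocks after `t` steps, with the parameter `p`. -/
def conf (A : BM) (w y p : List Bool) : ℕ → List Bool × (List Bool → List Bool)
  | 0 => (A.start p, fun _ => [])
  | t + 1 => A.step w y (A.conf w y p t)

/-- The first letter of the state after `r` steps is `1`. -/
def AcceptsAt (w y p : List Bool) (r : ℕ) : Prop := (A.conf w y p r).1.head? = some true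

/-- Up to the time `r`, states and addresses have at most `s` bits, names of blocks at most `m` bits,
and the contents of all blocks with such names have at most `a` bits. -/
def Fits (w y p : List Bool) (r s m a : ℕ) : Prop :=
  ∀ t ≤ r, (A.conf w y p t).1.length ≤ s ∧ (A.addr (A.conf w y p t).1).length ≤ s ∧
    (A.blk (A.conf w y p t).1).length ≤ m ∧
    ∀ x : List Bool, x.length ≤ m → ((A.conf w y p t).2 x).length ≤ a

/-- The number of the reads of blocks in the first `r` steps. -/
noncomputable def reads (w y p : List Bool) (r : ℕ) : ℕ :=
  {t : ℕ | t < r ∧ (A.blk (A.conf w y p t).1).head? = some true}.ncard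

/-- The machine accepts the input word `w` of length `n`, with the additional word `y`, for some
parameter `p` at some time `r`, with the following bounds: the parameter, states and addresses have
at most `s` bits, names of blocks at most `m` bits, contents of blocks at most `a` bits, and at most
`x` blocks are read. For `l = m + ⌊log₂ n⌋ + 1`: `x ^ 2 (a + 1) l ^ 4 ≤ C (n + 1) ^ 3` and
`(s + a) l ^ 4 ≤ C (n + 1)`. The time `r` is not bounded. -/
def Within (C : ℝ) (w y : List Bool) : Prop :=
  ∃ (p : List Bool) (r s m a : ℕ), A.AcceptsAt w y p r ∧ p.length ≤ s ∧ A.Fits w y p r s m a ∧
    (A.reads w y p r : ℝ) ^ 2 * ((a : ℝ) + 1) *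
      ((m : ℝ) + ((Nat.log 2 w.length : ℝ) + 1)) ^ 4 ≤ C * ((w.length : ℝ) + 1) ^ 3 ∧
    ((s : ℝ) + a) * ((m : ℝ) + ((Nat.log 2 w.length : ℝ) + 1)) ^ 4 ≤ C * ((w.length : ℝ) + 1)

end BM

end Pool.Agent.Helper65.BR
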