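import Pool.Agent.Helper65.BR.Num

/-!
# Machines with a memory of blocks: the statements of the parts

Every statement comes with its proof in words.
-/

namespace Pool.Agent.Helper65.BR

open Pool.Agent.Helper65.LinSpace Pool.Agent.Helper78.Mpc Pool.Agent.Helper28.Ram Finset Filter
open Pool.Agent.Helper65.RT (qT CT)
open Pool.Agent.Helper28.Long (ZL)

/-- TRU. The parallel machine simulates the machine with blocks.

(`ok`) `σ > 0`; `q`, `g`, `o`, `t0` are remainders; `P < 2 ^ (log₂ P + 1)`, so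
`2 P + 1 < 2 ^ (log₂ P + 2) ≤ 2 ^ σ`.

(`tr`) First let `P + 1 ≤ G E`, so `P + 1 + R = G E`. Claim for all `k`, with `(q, M) = conf (k R)`: for
`y < 2 ^ ν`, `T k (2 y) = M y`; for `j < P`, `T k (2 j + 1) = dig (2 ^ a) q j`; `T k (2 P + 1) = accN q`.
`k = 0`: `val`, and all values are smaller than `2 ^ a` (`accN ≤ 1 < 2 ^ a`). Step: fix a name `x`, write
`c t = conf (k R + t)`, `Z i = rt.Zt (rt.T k) x i`, `d i` for the digest of the event `i`; `Z i < (2 ^ a) ^ i`,
so for `i < i'` the digit `i` of `Z i'` is `d i` (`2 ^ (a * i) = (2 ^ a) ^ i`; `Nat.add_mul_div_left`,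
`dig_add_pow`-like lemmas as in `Pool/Agent/Helper31/DLS/Sim.lean`, or compare the proof of TRU in
`Pool/Agent/Helper96/MH/TRU.lean`, where the digests are cut off in the same way). Events `i < P`: the
name `2 i + 1 < 2 ^ σ`, the digest `dig (2 ^ a) (c 0).1 i`. Event `P`: the name `x` (if `x < 2 ^ σ`), the digest is
the own value. So for `i > P`: `Z i % (2 ^ a) ^ P = tab (2 ^ a) P (dig (2 ^ a) (c 0).1) = (c 0).1`, since
`(c 0).1 < 2 ^ s ≤ (2 ^ a) ^ P` (`s < a * (s / a + 1)`). Event `P + 1 + t`, `t < R`: by induction on `t`, the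
digest is `(c t).2 (A (c t).1)` (the value which is read in the step `t`): the digits `P + 1 + t'` of
`Z (P + 1 + t)`, `t' < t`, are the values read before, so `st Z t' = (c t').1` for `t' ≤ t` (by induction,
definition of `conf`), `i - P - 1 = t`, the name is `2 * A (c t).1 < 2 ^ (ν + 1) ≤ 2 ^ σ`, its value is
`(c 0).2 (A (c t).1)` by the induction hypothesis for `k` (`A < 2 ^ ν`), and `ct Z y ((c 0).2 y) t' = (c t').2 y`
for `t' ≤ t` by induction; the digest is smaller than `2 ^ a` (`Ok`: all contents are). At the end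
`Z = Z (G E)`: `st Z R = (c R).1`, and for `x = 2 y`: `ct Z y (dig (2 ^ a) Z P) R = ct Z y ((c 0).2 y) R = (c R).2 y`.
For `x = 2 j + 1` only the state is used. `(k + 1) R = k R + R`. The conclusion is the case `k = K` for
the root. If `G E < P + 1` then `rt.K = 0`, and the claim is the case `k = 0`. -/
structure TRU_stmt : Prop where
  ok : ∀ m : Mach, m.Ok → m.rt.Ok
  tr : ∀ m : Mach, m.Ok → m.rt.T m.rt.K m.rt.root = accN (m.conf (m.rt.K * m.R)).1

/-- LSR. The parallel machines form a family computed in linear space. `st` by `LS.nrec` with the bound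
`Z + CT x` (its values are `Z % …` or values of `N`, smaller than `2 ^ s`), `ct` by `LS.nrec` with the bound
`c + CT x`. `(2 ^ a) ^ P ≤ 2 ^ (s + a) ≤ CT x * CT x` (`a * P ≤ s + a`): `LS.pow_of_le`; `LS.dig` with the base
`2 ^ a`, `2 ^ σ = 2 ^ ν * (4 * 2 ^ log₂ P)`: `2 ^ rt.σ ≤ 2 ^ (σ E) ≤ CT x` by `hS`. `ok` by TRU. -/
def LSR_stmt : Prop := ∀ {α : Type} [Ctx α] {m : α → Mach} {x : α → ℕ}, LS x →
    LSM m (fun z => CT (x z)) →
    (∀ z, 2 ^ (m z).rt.nv (m z).rt.G ≤ CT (x z) ∧ 2 ^ ((m z).rt.σ * (m z).rt.E) ≤ CT (x z)) →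
    RT.LSM (fun z => (m z).rt) fun z => CT (x z)

/-- PAR. The parameters are admissible. Put `n = log₂ x`, `q = qT n ≥ 1`; `ZL n ≤ q - 1`, as
`ZL n ≤ n / ll n`; so `H + 1, S + 1 ≤ q`; `q ≤ n + 1`. `P = (S + 1) / (H + 1) + 1 ≤ S + 2 ≤ q + 1 ≤ n + 2`, so
`log₂ P ≤ ll n + 1` and `rt.σ = Z + 1 + log₂ P + 2 ≤ lT n T`; and `log₂ P ≤ P - 1 ≤ q`
(`Nat.log_lt_self` or `Nat.lt_two_pow_self`), so `rt.σ ≤ (q - 1) + 3 + q ≤ 4 q`, `rt.σ ≤ 2 q + 2 ≤ 4 (n + 1)`.
Case `oT = 0`: `E = G = 1`, `K = 0`; `h1`: `2 (H + 1) ≤ 4 q`. Case `oT ≠ 0`: all four conditions hold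
(`le01 = 1`); `rt.K ≤ K`. -/
def PAR_stmt : Prop := ∀ e x y T p : ℕ, RT.Par (Nat.log 2 x) (prm e x y T p).mach.rt ∧
    (prm e x y T p).mach.Ok

/-- RUNC. The machine on numbers makes silent steps between the reads.

(0) All states of `run` are smaller than `2 ^ (S + 1)` and all contents smaller than `2 ^ (H + 1)` (`fnN` with
the bound `S` is smaller than `2 ^ (S + 1)`; the contents are `1`, kept, or values of `wrN`), so the cuts
`capN` in `nxN` and in `mach.W` change nothing.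
(1) Induction on `k`. The initial configuration and the step of `mach` are of this form: start from a
configuration `c = (q, M)` (`c = (s0, 1)`, or `c = stp (conf k)`: the state is `nxN q v` with
`v = M (rdN q)`, and the contents are `ifz (accN q) (wrN …) (M x)`), then take `(sil q T, fun x => wil q x (M x) T)`.
If `c = run j` then for every `i` there is `j'` with `(sil q i, fun x => wil q x (M x) i) = run (j + j')`,
`j' ≤ i`: induction on `i`; if `stop (sil q i) ≠ 0` nothing changes (`ifz`); otherwise `stop = 0` gives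
`accN = 0`, `rdg = 0`, so `nxN r v = nxN r 1` for all `v` (`ifz 0 1 v = 1`), and the next configuration is
`stp` of the one before (`wil … (i + 1) = wrN (sil (i + 1)) x (wil … i)`, `sil (i + 1) = nxN (sil i) 1`).
(2) Let `t` be the first time with an accepting state. If `j ≤ t` and the state of `run j` is not stopping, then the states of
`run j, run (j + 1), …` up to the next stopping state (which exists, at a time `≤ t`, as accepting
states are stopping) are pairwise different, because the next state `nxN q 1` depends only on `q` (if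
two were equal the sequence of states would be periodic and never stop); so at most `2 ^ (S + 1)` steps
lead to a stopping state, and the silent steps (`T = 2 ^ (S + 1)`) end in a stopping state at a time
`≤ t`. Claim: for all `k` there is `j ≤ t` with `conf k = run j`, `stop (run j).1 ≠ 0`, and either `j = t` or
the number of `i < j` with `rdg (run i).1 ≠ 0` is `k`. Induction on `k`: `k = 0`: silent steps are no reads.
Step: if `j = t` then the state is accepting, `nxN` and the contents do not change, and `conf (k + 1)`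
is `conf k` (`sil q i = q`, `wil … = c` for an accepting `q`). If `j < t` the state is not accepting but
stopping, so `rdg ≠ 0`: the read is counted, then silent steps follow. If `k` is at least the number of
all reads before `t` then `j = t` (otherwise `k + 1` reads are before `t`). -/
structure RUNC_stmt : Prop where
  snd : ∀ (P : Prm) (k : ℕ), ∃ j, P.mach.conf k = P.run j
  cmp : ∀ (P : Prm) (t : ℕ), accN (P.run t).1 ≠ 0 → (∀ j < t, accN (P.run j).1 = 0) →
    ∀ k, {j : ℕ | j < t ∧ P.rdg (P.run j).1 ≠ 0}.ncard ≤ k → accN (P.mach.conf k).1 ≠ 0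

/-- The codes of the functions of the machine `A`. -/
structure CodB (A : BM) (P : Prm) : Prop where
  eS : ∀ u : List Bool, u.length ≤ P.S → fnN P.eS P.S P.Λ P.β P.M (num u) =
    if (A.start u).length ≤ P.S then num (A.start u) else 0
  eA : ∀ u : List Bool, u.length ≤ P.S → fnN P.eA P.S P.Λ P.β P.M (num u) =
    if (A.addr u).length ≤ P.S then num (A.addr u) else 0
  eB : ∀ u : List Bool, u.length ≤ P.S → fnN P.eB P.Z P.Λ P.β P.M (num u) =
    if (A.blk u).length ≤ P.Z then num (A.blk u) else 0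
  eN : ∀ u : List Bool, u.length ≤ 2 * P.S + P.H + 10 → fnN P.eN P.S P.Λ P.β P.M (num u) =
    if (A.next u).length ≤ P.S then num (A.next u) else 0
  eW : ∀ u : List Bool, u.length ≤ 2 * P.S + 2 * P.Z + P.H + 10 →
    fnN P.eW P.H P.Λ P.β P.M (num u) =
    if (A.write u).length ≤ P.H then num (A.write u) else 0

/-- CODE. `fnN_spec` (`Helper78/Mpc/Words.lean`) for the five functions; `c` is the sum of the constants. -/
def CODE_stmt : Prop := ∀ A : BM, ∃ eS eA eB eN eW c : ℕ, ∀ P : Prm, P.eS = eS → P.eA = eA →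
    P.eB = eB → P.eN = eN → P.eW = eW → c * (4 * (P.S + P.Z + P.H) + 20) ≤ P.Λ →
    c + P.Λ + (4 * (P.S + P.Z + P.H) + 20) ≤ P.β → 2 ^ (P.S + 1) ≤ P.M → 2 ^ (P.Z + 1) ≤ P.M →
    2 ^ (P.H + 1) ≤ P.M → CodB A P

/-- WORD. The steps on numbers and on words. Write `c t = A.conf w y p t`.
(`snd`) For all `j`: `(run j).1 = 0`, or there is `t` with `(run j).1 = num (c t).1`, `|(c t).1| ≤ S`, and for all
words `x` with `|x| ≤ Z`: `(run j).2 (num x) = 0`, or `(run j).2 (num x) = num ((c t).2 x)` and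
`|(c t).2 x| ≤ H`. `j = 0`: `num [] = 1`, `t = 0`, `fnN` for `start p`. Step: if the state `q` is `0` then
`fnN e … 0 = 0` (`fnN_zero`), so `adN = 0` and `nxN = 0` (`accN 0 = 0`). Let `q = num u`. If `accN q ≠ 0` nothing
changes (`capN S q = q` as `|u| ≤ S`), keep `t`. Otherwise, `adN q` is `num (addr u)` or `0`, `blN q` is `num (blk u)` or `0` (with
`|blk u| ≤ Z`); if one of them is `0` then the new state is `0`. `rdg q ≠ 0` iff `accN (num (blk u)) = 1` iff
`(blk u).head? = some true` (`accN_num`; `accN ≤ 1`). If so the value read is `(run j).2 (num (blk u))`; if it is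
`0` then `inN q 0 = 0` (`catN _ 0 = 0`: definition of `catN`) and the new state is `0`; otherwise it is
`num (A.get …)`; if not, `1 = num [] = num (A.get …)`. `inN (num u) (num v) = num (sd u ++ (letW … ++ (letW … ++ v)))`
(`sdN_num`, `catN_num`, `lwN (letN (num w) i) = num (letW w[i]?)` as `letN (num w) i = codeO w[i]?`,
`bvalN (num a) = bval a`; compare `Pool/Agent/Helper36/MH` or the proofs of STM, PFM of
`Helper20/MH/Goals.lean`), of length `≤ (2 S + 1) + 4 + H`. So the new state is `0` or `num (c (t + 1)).1`, of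
length `≤ S`. Contents: if the new state is `0` then `sdN 0 = 0`, `catN 0 _ = 0`, `wrN = 0`; if the old content
is `0` then `wrN = 0`; otherwise `wrN = num (write (sd q' ++ (sd x ++ c)))` or `0`, the argument has length
`≤ (2 S + 1) + (2 Z + 1) + H`. So: an accepting state of `run` is `num (c t).1` with `accN = 1`. (`sdN 0 = 0`:
see `Helper78/Mpc/Words.lean`.)
(`cmp`) The same with equalities: for `t ≤ r`, `(run t).1 = num (c t).1` and
`(run t).2 (num x) = num ((c t).2 x)` for `|x| ≤ Z`, as all lengths are within the bounds by `Fits` and the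
states before `r` do not accept. -/
structure WORD_stmt : Prop where
  snd : ∀ (A : BM) (P : Prm) (w y p : List Bool), CodB A P → P.x = num w → P.y = num y →
    P.p = num p → p.length ≤ P.S → ∀ j, accN (P.run j).1 ≠ 0 → ∃ t, A.AcceptsAt w y p t
  cmp : ∀ (A : BM) (P : Prm) (w y p : List Bool), CodB A P → P.x = num w → P.y = num y →
    P.p = num p → p.length ≤ P.S → ∀ r, A.Fits w y p r P.S P.Z P.H →
    (∀ t < r, ¬A.AcceptsAt w y p t) → ∀ t ≤ r, (P.run t).1 = num (A.conf w y p t).1 ∧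
      (P.rdg (P.run t).1 ≠ 0 ↔ (A.blk (A.conf w y p t).1).head? = some true)

/-- ASY. The parameters for large `n`. Put `l = m + ll n` (real number `m + ⌊log₂ n⌋ + 1`), `λ = lT n T = l + 4 ≤ 5 l`
(with `bT n T 2 = m` etc.; `T = s + (n + 2) (a + (n + 2) m)` has the digits `s`, `a`, `m` in base `n + 2`),
`Q = n / λ` (rounded down), `A = a + 1`, `g = ⌊√⌊Q / (4 A)⌋⌋ + 1`, `κ = Q / g` (rounded down).
From `1 ≤ s` and the second bound: `l ^ 4 ≤ C (n + 1)`, and `s, a ≤ C (n + 1) / l ^ 4`, `m ≤ l`; `ll n ≤ l` tends to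
infinity, so `s, a ≤ ZL n` (`Long.le_ZL`, as `l ^ 4 ≥ (ll n) ^ 2`), `m ≤ ZL n` (`m ^ 4 ≤ C (n + 1)`, and
`ZL n ≥ n / (ll n) ^ 2 - 1` is larger than `2 (|C| + 1) √n` for large `n`), all are smaller than `n + 2`.
Facts: `Q ≥ n / (10 l)` (as `λ ≤ n / 2` for large `n`), `Q λ ≤ n`, `g ^ 2 > Q / (4 A)` (real), `κ g ≤ Q`, and
`Q / A ≥ l ^ 3 / (40 |C| + …)` is large, `g ≤ 2 √(Q / (4 A)) + …`, `g ≤ Q / 4`, so `κ ≥ Q / (2 g)`.
(i) first condition of `oT`: with `t = ⌊Q / (4 A)⌋ ≥ 1`, `(g ^ 2 + g) A ≤ 6 t A ≤ 2 Q ≤ 4 qT n`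
(`Q ≤ n / ll n ≤ qT n`). (ii) `κ (g + 2) ≤ 3 κ g ≤ 3 Q`. (iii) `κ ^ 2 ≤ Q ^ 2 / g ^ 2 ≤ 4 A Q`, so
`(κ λ) ^ 2 ≤ 4 A Q λ ^ 2 ≤ 4 A λ n ≤ c n ^ 2 / l ^ 3` for a constant `c`, which is at most `(n / ll n) ^ 2` for large
`n`; `λ ≤ qT n` for large `n`. (iv) `κ λ g ≤ Q λ ≤ n`; `λ g ≤ n`. (v) `(s + 1) / (a + 1) + 2 ≤ g ^ 2 / 2`: by
`8 (s + 1) + 16 A ≤ Q` for large `n`. (vi) `κ (g ^ 2 - …) ≥ κ g ^ 2 / 2 ≥ Q g / 4`, whose square is at least
`Q ^ 3 / (64 A) ≥ (n / (10 l)) ^ 3 / (64 A)`, while `x ^ 2 ≤ C (n + 1) ^ 3 / (A l ^ 4)`. -/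
def ASY_stmt : Prop := ∀ C : ℝ, ∀ᶠ n : ℕ in atTop, ∀ x s m a : ℕ, 1 ≤ s →
    (x : ℝ) ^ 2 * ((a : ℝ) + 1) * ((m : ℝ) + ((Nat.log 2 n : ℝ) + 1)) ^ 4 ≤
      C * ((n : ℝ) + 1) ^ 3 →
    ((s : ℝ) + a) * ((m : ℝ) + ((Nat.log 2 n : ℝ) + 1)) ^ 4 ≤ C * ((n : ℝ) + 1) →
    ∃ T < (n + 2) ^ 3, bT n T 0 = s ∧ bT n T 1 = a ∧ bT n T 2 = m ∧ oT n T = 1 ∧
      (s + 1) / (a + 1) + 2 ≤ gT n T * gT n T ∧
      x ≤ kT n T * (gT n T * gT n T - ((s + 1) / (a + 1) + 2))

/-- SIZ. As the second part of PAR in `Pool/Agent/Helper65/NX/Goals.lean` (`Long.ev_par` and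
`Pool.Agent.Helper35.HCS.par` are similar). -/
def SIZ_stmt : Prop := ∀ c : ℕ, ∀ᶠ n : ℕ in atTop, ∀ S ≤ ZL n, ∀ H ≤ ZL n, ∀ Z ≤ ZL n,
    c * (4 * (S + Z + H) + 20) ≤ LW n ∧ c + LW n + (4 * (S + Z + H) + 20) ≤ 2 ^ (2 * ll n) ∧
    ∀ x, Nat.log 2 x = n → 2 ^ (S + 1) ≤ CR x ∧ 2 ^ (Z + 1) ≤ CR x ∧ 2 ^ (H + 1) ≤ CR x

/-- LSP. The functions of the machine are computed in linear space. `S, H, Z ≤ ZL n ≤ n`, so all powers
`2 ^ (S + 1)` … are at most `2 * 2 ^ n ≤ 2 x + 2`; `LS.fnN` as in the proofs of LSP in `NX`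
(`Pool/Agent/Helper65/NX/K*`) or `Pool.Agent.Helper14.HCS.lsp`. `sil` by `LS.nrec` with the bound
`q + 2 ^ (S + 1)`, `wil` by `LS.nrec` with the bound `c + 2 ^ (H + 1)`; the number of steps is
`2 ^ (S + 1)`. `gT`: `Nat.sqrt` is available as for `gR`. -/
def LSP_stmt : Prop := ∀ {α : Type} [Ctx α] {e x y T p : α → ℕ}, LS e → LS x → LS y → LS T →
    LS p → LSM (fun z => (prm (e z) (x z) (y z) (T z) (p z)).mach) (fun z => CT (x z))

/-- LSK (may assume TRU, LSR, PAR, LSP). `LS.sum_le` (`Mpc`), the terms are at most `1`: by `Sim.eq` and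
TRU the value is `accN …`. For `LSR` the bounds come from `s.nv`, with `PAR` and `TRU.ok`. -/
def LSK_stmt : Prop := ∀ s : RT.Sim,
    LS (fun z : ℕ × ℕ × ℕ × ℕ => accF s z.1 z.2.1 z.2.2.1 z.2.2.2) ∧ LS NF

/-- FIN (may assume all others). The code of the machine is
`e = Nat.pair (Nat.pair eS eA) (Nat.pair eB (Nat.pair eN eW))`; put `P = prm e (num w) (num y) T q`,
`n = |w| = log₂ (num w)` (`log_num`); for large `n` `SIZ` and `CODE` give `CodB A P`.
(a) If `accF ≠ 0` then for some `q < 2 ^ (S + 1)`, `q ≠ 0`, the value of `sim` is not `0`; `q = num p` with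
`|p| ≤ S` (`num_surj`-like lemma, `log_num`); by `Sim.eq` (PAR) and TRU `accN (mach.conf k).1 ≠ 0` for some `k`,
so `accN (run j).1 ≠ 0` for some `j` (RUNC), and WORD gives the claim.
(b) Let `Within` hold with `p, r, s, m, a`; we may take the smallest accepting time `r` (`Fits` and `reads`
are monotone in `r`). `1 ≤ s` since the state at the time `r` is not empty. `ASY` for
`x = reads` gives `T` with `S = s`, `H = a`, `Z = m`, `E = G = gT`, `K = kT`; `mach.P = (s + 1) / (a + 1) + 1`,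
`mach.R = g * g - (P + 1)`, `rt.K = kT`. By WORD.cmp the reads of `run` before `r` are the reads of `A`, their
number is at most `rt.K * R`, and RUNC.cmp gives `accN (mach.conf (rt.K * R)).1 ≠ 0`; so the term of
`q = num p < 2 ^ (S + 1)` is not `0`. `(n + 2) ^ 3 = NF (num w)`. -/
def FIN_stmt : Prop := ∀ (s : RT.Sim) (A : BM) (C : ℝ), ∃ e n₀ : ℕ,
    ∀ w y : List Bool, n₀ ≤ w.length →
      (∀ T < NF (num w), accF s e (num w) (num y) T ≠ 0 → ∃ p r, A.AcceptsAt w y p r) ∧
      (A.Within C w y → ∃ T < NF (num w), accF s e (num w) (num y) T ≠ 0)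

end Pool.Agent.Helper65.BR
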