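import Pool.Agent.Helper65.OH.Defs
import Mathlib.Analysis.SpecialFunctions.Pow.Real

/-!
# Machines with tapes on which the heads can jump: definitions
-/

namespace Pool.Agent.Helper65.BR

open Pool.Agent.Helper65.LinSpace Pool.Agent.Helper78.Mpc Pool.Agent.Helper28.Ram
open Pool.Agent.Helper65.OH (letW)

/-- A machine with `K` tapes with random access. The state and the contents of the cells are words, the
cells of a tape are numbered by `0, 1, 2, …`. In the state `q` the head on the tape number `i` is on the
cell whose number is written in binary as `pos (⟨i⟩ q)`. In one step the machine in the state `q` reads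
the letters `a` and `b` of the input word and of the additional word whose index is written in binary
as `addr q`, and the contents `v₁, …, v_K` of the cells on which its heads are. Its new state is
`next (⟨q⟩ a b ⟨v₁⟩ … ⟨v_K⟩)`, and the new content of the cell of the head number `i` is
`write (⟨i⟩ ⟨q⟩ a b ⟨v₁⟩ … ⟨v_K⟩)`; here `⟨q⟩` is the self-delimiting code of `q`. All functions are
computed in linear space. -/
structure Jumper (K : ℕ) where
  start : List Bool
  addr : List Bool → List Bool
  pos : List Bool → List Bool
  next : List Bool → List Bool
  write : List Bool → List Bool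
  addr_lin : LinComp addr
  pos_lin : LinComp pos
  next_lin : LinComp next
  write_lin : LinComp write

namespace Jumper

variable {K : ℕ} (A : Jumper K)

/-- The cell on which the head number `i` is in the state `q`. -/
def cell (q : List Bool) (i : Fin K) : ℕ := bval (A.pos (sd (i : ℕ).bits ++ q))

/-- The word which the function `next` gets if the heads read the words `v i`. -/
def inp (w y : List Bool) (q : List Bool) (v : Fin K → List Bool) : List Bool :=
  sd q ++ (letW w[bval (A.addr q)]? ++ (letW y[bval (A.addr q)]? ++
    (List.finRange K).flatMap fun i => sd (v i)))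

/-- The words which the heads read. -/
def rd (c : List Bool × (Fin K → ℕ → List Bool)) (i : Fin K) : List Bool := c.2 i (A.cell c.1 i)

/-- One step on the input word `w` and the additional word `y`. -/
def step (w y : List Bool) (c : List Bool × (Fin K → ℕ → List Bool)) :
    List Bool × (Fin K → ℕ → List Bool) :=
  (A.next (A.inp w y c.1 (A.rd c)), fun i =>
    Function.update (c.2 i) (A.cell c.1 i) (A.write (sd (i : ℕ).bits ++ A.inp w y c.1 (A.rd c))))

/-- The state and the contents of the cells after `t` steps. At the start all cells are empty. -/
def conf (A : Jumper K) (w y : List Bool) : ℕ → List Bool × (Fin K → ℕ → List Bool)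
  | 0 => (A.start, fun _ _ => [])
  | t + 1 => A.step w y (A.conf w y t)

/-- The first letter of the state after `r` steps is `1`. -/
def AcceptsAt (w y : List Bool) (r : ℕ) : Prop := (A.conf w y r).1.head? = some true

/-- Up to the time `r`, states and addresses have at most `s` bits, the numbers of the cells of the heads
are written with at most `b` bits, and the contents of the cells have at most `a` bits. -/
def Fits (w y : List Bool) (r s b a : ℕ) : Prop :=
  ∀ t ≤ r, (A.conf w y t).1.length ≤ s ∧ (A.addr (A.conf w y t).1).length ≤ s ∧
    (∀ i : Fin K, (A.pos (sd (i : ℕ).bits ++ (A.conf w y t).1)).length ≤ b) ∧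
    ∀ i z, ((A.conf w y t).2 i z).length ≤ a

/-- The number of jumps in the first `r` steps: pairs of a time `t` and a head which moves, in the step
after the time `t`, to a cell which is neither the same nor a neighbour. -/
noncomputable def jumps (w y : List Bool) (r : ℕ) : ℕ :=
  {z : ℕ × Fin K | z.1 < r ∧ (A.cell (A.conf w y z.1).1 z.2 + 1 < A.cell (A.conf w y (z.1 + 1)).1 z.2 ∨
    A.cell (A.conf w y (z.1 + 1)).1 z.2 + 1 < A.cell (A.conf w y z.1).1 z.2)}.ncard

/-- The machine accepts the input word `w` of length `n`, with the additional word `y`, at some time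
`r`, after `J` jumps, with the following bounds: states and addresses have at most `s` bits, the
numbers of the cells of the heads at most `b` bits, contents at most `a` bits. For
`l = b + ⌊log₂ n⌋ + 1`: `r (J + n + 1) (a + 1) l ^ 4 ≤ C (n + 1) ^ 3` and
`(s + a + l) l ^ 4 ≤ C (n + 1)`. -/
def Within (C : ℝ) (w y : List Bool) : Prop :=
  ∃ r s b a : ℕ, A.AcceptsAt w y r ∧ A.Fits w y r s b a ∧
    (r : ℝ) * ((A.jumps w y r : ℝ) + w.length + 1) * ((a : ℝ) + 1) *
      ((b : ℝ) + ((Nat.log 2 w.length : ℝ) + 1)) ^ 4 ≤ C * ((w.length : ℝ) + 1) ^ 3 ∧
    ((s : ℝ) + a + ((b : ℝ) + ((Nat.log 2 w.length : ℝ) + 1))) *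
      ((b : ℝ) + ((Nat.log 2 w.length : ℝ) + 1)) ^ 4 ≤ C * ((w.length : ℝ) + 1)

end Jumper

end Pool.Agent.Helper65.BR
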