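import Pool.Agent.Helper65.BR.PNum
import Pool.Agent.Helper65.BR.Goals

/-!
# Parallel machines with supersteps: the statements of the parts

Every statement comes with its proof in words. The parts are simpler variants of the parts in
`Pool/Agent/Helper65/BR/Goals.lean`.
-/

namespace Pool.Agent.Helper65.BR

open Pool.Agent.Helper65.LinSpace Pool.Agent.Helper78.Mpc Pool.Agent.Helper28.Ram Finset Filter
open Pool.Agent.Helper65.RT (qT CT)
open Pool.Agent.Helper28.Long (ZL)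

/-- The codes of the functions of the machine `A`. -/
structure CodP (A : PM) (P : Prp) : Prop where
  eI : ∀ u : List Bool, u.length ≤ 4 * P.Z + P.H + 10 → fnN P.eI P.S P.Λ P.β P.M (num u) =
    if (A.init u).length ≤ P.S then num (A.init u) else 0
  eA : ∀ u : List Bool, u.length ≤ P.S → fnN P.eA P.S P.Λ P.β P.M (num u) =
    if (A.addr u).length ≤ P.S then num (A.addr u) else 0
  eR : ∀ u : List Bool, u.length ≤ P.S → fnN P.eR P.Z P.Λ P.β P.M (num u) =
    if (A.reg u).length ≤ P.Z then num (A.reg u) else 0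
  eN : ∀ u : List Bool, u.length ≤ 2 * P.S + P.H + 10 → fnN P.eN P.S P.Λ P.β P.M (num u) =
    if (A.next u).length ≤ P.S then num (A.next u) else 0
  eO : ∀ u : List Bool, u.length ≤ P.S → fnN P.eO P.H P.Λ P.β P.M (num u) =
    if (A.out u).length ≤ P.H then num (A.out u) else 0

/-- PCODE. As `CODE_stmt` (`Pool.Agent.Helper35.BR`). -/
def PCODE_stmt : Prop := ∀ A : PM, ∃ eI eA eR eN eO c : ℕ, ∀ P : Prp, P.eI = eI → P.eA = eA →
    P.eR = eR → P.eN = eN → P.eO = eO → c * (4 * (P.S + P.Z + P.H) + 20) ≤ P.Λ →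
    c + P.Λ + (4 * (P.S + P.Z + P.H) + 20) ≤ P.β → 2 ^ (P.S + 1) ≤ P.M → 2 ^ (P.Z + 1) ≤ P.M →
    2 ^ (P.H + 1) ≤ P.M → CodP A P

/-- PPAR. As `PAR_stmt` (`Pool/Agent/Helper96/BR/PAR.lean`). If `oP = 0` then `E = G = 1`, `K = 0`, `σ = Z + 1`,
and `Z + 1, H + 1 ≤ qT n ≤ n + 1`. Otherwise all conditions in `oP` hold. `Ok`: `fnN e S … < 2 ^ (S + 1)`
(`fnN_lt` in the same file), `1 < 2 ^ (H + 1)`. -/
def PPAR_stmt : Prop := ∀ e x y T p : ℕ, RT.Par (Nat.log 2 x) (prp e x y T p).rt ∧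
    (prp e x y T p).rt.Ok ∧
    ((prp e x y T p).K ≠ 0 → (prp e x y T p).R + 1 ≤ (prp e x y T p).G * (prp e x y T p).E)

/-- PWRD. The supersteps on numbers and on words. Put `τ k x = rt.T k x`, and let `R + 1 ≤ G E`. For fixed
`k`, `x` let `d i` be the digests of the events (`RT.Mach.Zt`; `Z i < (2 ^ (H + 1)) ^ i`, so for `i < i'` the
digit `i` of `Zt i'` is `d i`, see the proof of TRU in `Pool/Agent/Helper86/BR/TRU.lean`). `d 0` is the own
value `τ k x` (for `x < 2 ^ (Z + 1)`), `d (1 + j)` is the value of the name `rgN (lcN x Z j) % 2 ^ (Z + 1)`, and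
`rgN < 2 ^ (Z + 1)` anyway; `lcN x Z j` depends only on the digits `0, …, j`.
(`snd`) By induction on `k`: for every word `x` with `|x| ≤ Z`, `τ k (num x)` is `0`, or it is `num (val k x)`
and `|val k x| ≤ H` (`val 0 x = []`, `num [] = 1`). Step: by induction on `j ≤ R`, `lcN (num x) Z j` is `0`, or it is
`num (loc … j)` and `|loc … j| ≤ S`. `j = 0`: if the own value is `0` then `catN … 0 = 0`, `fnN … 0 = 0`;
otherwise `sdN_num`, `catN_num` and `eI` (the argument has length at most `(2 Z + 1) + (2 Z + 1) + H`).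
Step: if the state is `0` it remains `0` (`fnN … 0 = 0`, so `adN = 0`); if `adN` or `rgN` is `0` the new state is
`0`; otherwise `rgN = num (reg u)`, `|reg u| ≤ Z`, so the value read is `0` (then `inN _ 0 = 0`, new state `0`) or
right; then as in WORD (`Pool.Agent.Helper12.BR`). At the end `outN`. For `k = K` and the root `num p`: if the
value accepts (`accN ≠ 0`, so it is not `0`) then `val K p` begins with `1` (`accN_num`).
(`cmp`) The same with equalities. -/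
structure PWRD_stmt : Prop where
  snd : ∀ (A : PM) (P : Prp) (w y p : List Bool), CodP A P → P.x = num w → P.y = num y →
    P.p = num p → p.length ≤ P.Z → P.rt.Ok → P.R + 1 ≤ P.G * P.E →
    accN (P.rt.T P.K P.rt.root) ≠ 0 → A.AcceptsAt w y p P.R P.K
  cmp : ∀ (A : PM) (P : Prp) (w y p : List Bool), CodP A P → P.x = num w → P.y = num y →
    P.p = num p → P.rt.Ok → P.R + 1 ≤ P.G * P.E → A.Fits w y p P.R P.K P.S P.Z P.H →
    A.AcceptsAt w y p P.R P.K → accN (P.rt.T P.K P.rt.root) ≠ 0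

/-- PASY. The parameters for large `n`. Put `l = m + ll n` (real number `m + ⌊log₂ n⌋ + 1`), `q = qT n ≥ n / ll n`.
From the second bound `l ^ 2 ≤ C (n + 1)`, `a l ^ 2 ≤ C (n + 1)`, `(R + 1) l ^ 2 ≤ C (n + 1)`, so `s, a ≤ ZL n`
(`Long.le_ZL`), `m ≤ l ≤ √(C (n + 1)) ≤ ZL n`, `R ≤ n` for large `n` (`l ≥ ll n` tends to infinity); from the
first bound `k ≤ √|C| (n + 1) / l ^ (5 / 2)`, so `k ≤ n`, `3 (k + 1) ≤ q` and `(k + 1) (m + 1) ≤ q` for large `n`
(`(k + 1) (m + 1) ≤ 4 √|C| (n + 1) / l ^ (3 / 2) + 2 l`). Also `3 (R + 1) (a + 1) ≤ q`.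
Case `(k + 1) (m + 1) (R + 1) ≤ 4 (n + 1)`: `E = R + 1`, `G = R / (R + 1) + 1 = 1`. Otherwise
`E = 4 (n + 1) / ((k + 1) (m + 1))` (rounded down), `1 ≤ E ≤ R`, `G = R / E + 1`, `G E ≤ R + E`, and
`k R / E ≤ k R (k + 1) (m + 1) / (2 (n + 1)) ≤ k ^ 2 R l / (n + 1) ≤ |C| (n + 1) / l ^ 4 ≤ q` for large `n`
(`m + 1 ≤ l`; if `k = 0` there is nothing to show). `T` is the number with these digits in base `n + 2`. -/
def PASY_stmt : Prop := ∀ C : ℝ, ∀ᶠ n : ℕ in atTop, ∀ k R s m a : ℕ,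
    (k : ℝ) ^ 2 * ((R : ℝ) + 1) * ((m : ℝ) + ((Nat.log 2 n : ℝ) + 1)) ^ 5 ≤
      C * ((n : ℝ) + 1) ^ 2 →
    ((R : ℝ) + 1) * ((a : ℝ) + 1) * ((m : ℝ) + ((Nat.log 2 n : ℝ) + 1)) ^ 2 ≤
      C * ((n : ℝ) + 1) →
    (s : ℝ) * ((m : ℝ) + ((Nat.log 2 n : ℝ) + 1)) ^ 2 ≤ C * ((n : ℝ) + 1) →
    ∃ T < (n + 2) ^ 6, bT n T 0 = s ∧ bT n T 1 = a ∧ bT n T 2 = m ∧ dig (n + 2) T 3 = R ∧
      dig (n + 2) T 4 = k ∧ oP n T = 1

/-- PLSP (may assume PPAR). The machines form a family computed in linear space, as `LSP_stmt` and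
`LSR_stmt`. `lcN` by `LS.nrec` with the bound `2 ^ (S + 1) + …` (all values are values of `fnN` with the
bound `S`, or `0`). `hC`, `hS` are the last hypothesis (in the application they come from `RT.Sim.nv`). -/
def PLSP_stmt : Prop := ∀ {α : Type} [Ctx α] {e x y T p : α → ℕ}, LS e → LS x → LS y → LS T →
    LS p →
    (∀ z, 2 ^ (prp (e z) (x z) (y z) (T z) (p z)).rt.nv (prp (e z) (x z) (y z) (T z) (p z)).rt.G ≤
        CT (x z) ∧
      2 ^ ((prp (e z) (x z) (y z) (T z) (p z)).rt.σ * (prp (e z) (x z) (y z) (T z) (p z)).rt.E) ≤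
        CT (x z)) →
    RT.LSM (fun z => (prp (e z) (x z) (y z) (T z) (p z)).rt) fun z => CT (x z)

/-- PLSK (may assume PPAR, PLSP). As `LSK_stmt`; the terms are at most `1`. -/
def PLSK_stmt : Prop := ∀ s : RT.Sim,
    LS (fun z : ℕ × ℕ × ℕ × ℕ => accP s z.1 z.2.1 z.2.2.1 z.2.2.2) ∧ LS NP

/-- PFIN (may assume all others, and SIZ). As `FIN_stmt` (`Pool.Agent.Helper91.BR`), with the code
`e = Nat.pair (Nat.pair eI eA) (Nat.pair eR (Nat.pair eN eO))`. (a) If a term of `accP` is not `0` then `K ≠ 0`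
(for `K = 0` the value of the root is `1`, and `accN 1 = 0`), so `R + 1 ≤ G E` by PPAR. (b) `k ≠ 0`, since at
the start the registers are empty; `PASY` gives `T`; `K = k ≠ 0`. -/
def PFIN_stmt : Prop := ∀ (s : RT.Sim) (A : PM) (C : ℝ), ∃ e n₀ : ℕ,
    ∀ w y : List Bool, n₀ ≤ w.length →
      (∀ T < NP (num w), accP s e (num w) (num y) T ≠ 0 → ∃ p R k, A.AcceptsAt w y p R k) ∧
      (A.Within C w y → ∃ T < NP (num w), accP s e (num w) (num y) T ≠ 0)

end Pool.Agent.Helper65.BR
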