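import Pool.Agent.Helper92.KR.Hub2
import Pool.Agent.Helper65.BR.Goals
import Pool.Agent.Helper65.BR.PGoals
import Pool.Agent.Helper65.BR.JDefs
import Pool.Agent.Helper65.RT.Final

/-!
# Six models of computation at the same time, with and without guessed letters
-/

namespace Pool.Agent.Helper65.BR

open Pool.Agent.Helper65.LinSpace Pool.Agent.Helper78.Mpc
open Pool.Agent.Helper81.Gen4 (Q Q_mono)
open Pool.Agent.Helper31.Gen5 (Hard q_hard)
open Pool.Agent.Helper31.MHS (q_take)
open Pool.Agent.Helper92.KR (acc2 Coded Coded.left Coded.right Coded.even Coded.odd Hub hubA hubN par)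
open Pool.Agent.Helper92.RE (hard_adv)

/-- Machines with messages, machines with one head, with several heads, networks, and machines with a
memory of blocks. -/
noncomputable def fiveA (c : ℕ) : ℕ → ℕ → ℕ → ℕ → ℕ :=
  acc2 (hubA c) (accF RT.theSim) (hubN c) NF

/-- The number of the certificates. -/
noncomputable def fiveN (c x : ℕ) : ℕ := hubN c x + NF x

/-- The six models together. -/
noncomputable def allA (c : ℕ) : ℕ → ℕ → ℕ → ℕ → ℕ :=
  acc2 (fiveA c) (accP RT.theSim) (fiveN c) NP

/-- The number of the certificates. -/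
noncomputable def allN (c x : ℕ) : ℕ := fiveN c x + NP x

theorem LS.fiveN (hL : LSK_stmt) (c : ℕ) : LS (fiveN c) :=
  LS.add (Pool.Agent.Helper92.KR.LS.hubN c) (hL RT.theSim).2

theorem LS.allN (hL : LSK_stmt) (hP : PLSK_stmt) (c : ℕ) : LS (allN c) :=
  LS.add (LS.fiveN hL c) (hP RT.theSim).2

theorem LS.allA (hL : LSK_stmt) (hP : PLSK_stmt) (c : ℕ) :
    LS (fun z : ℕ × ℕ × ℕ × ℕ => allA c z.1 z.2.1 z.2.2.1 z.2.2.2) :=
  Pool.Agent.Helper92.KR.LS.acc2 (Pool.Agent.Helper92.KR.LS.acc2
    (Pool.Agent.Helper92.KR.LS.hubA c) (hL RT.theSim).1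
    (Pool.Agent.Helper92.KR.LS.hubN c) (hL RT.theSim).2) (hP RT.theSim).1
    (LS.fiveN hL c) (hP RT.theSim).2

/-- The machines with a code. -/
def All (c : ℕ) (Acc Good : List Bool → List Bool → Prop) : Prop :=
  (∀ w y, Good w y → Acc w y) ∧ Coded (allA c) (allN c) Acc Good

theorem all_hub {c : ℕ} {Acc Good : List Bool → List Bool → Prop} (h : Hub c Acc Good) :
    All c Acc Good :=
  ⟨h.1, Coded.left (Coded.left h.2)⟩

theorem all_bm (hF : FIN_stmt) (c : ℕ) (A : BM) (C : ℝ) :
    All c (fun w y => ∃ p r, A.AcceptsAt w y p r) (A.Within C) := by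
  refine ⟨?_, Coded.left (Coded.right (hF RT.theSim A C))⟩
  rintro w y ⟨p, r, _, _, _, h, -⟩
  exact ⟨p, r, h⟩

theorem all_pm (hF : PFIN_stmt) (c : ℕ) (A : PM) (C : ℝ) :
    All c (fun w y => ∃ p R k, A.AcceptsAt w y p R k) (A.Within C) := by
  refine ⟨?_, Coded.right (hF RT.theSim A C)⟩
  rintro w y ⟨p, R, k, _, _, _, h, -⟩
  exact ⟨p, R, k, h⟩

/-- **Hardness**, for all machines with a code, with and without guessed letters. -/
theorem all_hard (hL : LSK_stmt) (hP : PLSK_stmt) (c : ℕ) (hc : 0 < c) :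
    ∃ L : Set (List Bool), DLINSPACE L ∧
      ∀ Acc Good : List Bool → List Bool → Prop, All c Acc Good →
        Hard L c (fun w α => Q (c * w.length) fun v => Acc w (α ++ v))
          (fun w α => Q (c * w.length) fun v => Good w (α ++ v)) ∧ Hard L c Acc Good := by
  obtain ⟨L, h1, h2⟩ := q_hard (par (allA c) c) (allN c)
    (Pool.Agent.Helper92.KR.LS.par (LS.allA hL hP c) c) (LS.allN hL hP c) c c hc
  refine ⟨L, h1, fun Acc Good h => ⟨h2 Acc Good (h.2.even c), ?_⟩⟩
  exact (h2 _ _ (h.2.odd c)).mono (fun w α h => (q_take c w α fun y => Acc w y).1 h)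
    (fun w α h => (q_take c w α fun y => Good w y).2 h)

/-- Computations which are simulated by a machine with a code, for long words `w` and for words `y` of at
most `4 c |w|` letters. -/
def SimA (c : ℕ) (Acc Good : List Bool → List Bool → Prop) : Prop :=
  ∃ Acc₀ Good₀ : List Bool → List Bool → Prop, All c Acc₀ Good₀ ∧
    (∀ w y, Acc₀ w y → Acc w y) ∧ (∀ w y, Good w y → Acc₀ w y) ∧
    ∃ n₁ : ℕ, ∀ w y : List Bool, n₁ ≤ w.length → y.length ≤ 4 * c * w.length →
      Good w y → Good₀ w y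

theorem SimA.of_all {c : ℕ} {Acc Good : List Bool → List Bool → Prop} (h : All c Acc Good) :
    SimA c Acc Good :=
  ⟨Acc, Good, h, fun _ _ h => h, h.1, 0, fun _ _ _ _ h => h⟩

theorem SimA.of_sim {c : ℕ} {Acc Good : List Bool → List Bool → Prop}
    (h : Pool.Agent.Helper92.KR.Sim c Acc Good) : SimA c Acc Good := by
  obtain ⟨Acc₀, Good₀, h1, h2⟩ := h
  exact ⟨Acc₀, Good₀, all_hub h1, h2⟩

/-- **Hardness**, with and without guessed letters. -/
theorem simA_hard (hL : LSK_stmt) (hP : PLSK_stmt) (c : ℕ) (hc : 0 < c) :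
    ∃ L : Set (List Bool), DLINSPACE L ∧
      ∀ Acc Good : List Bool → List Bool → Prop, SimA c Acc Good →
        Hard L c (fun w α => Q (c * w.length) fun v => Acc w (α ++ v))
          (fun w α => Q (c * w.length) fun v => Good w (α ++ v)) ∧ Hard L c Acc Good := by
  obtain ⟨L, h1, h2⟩ := all_hard hL hP c hc
  refine ⟨L, h1, fun Acc Good ⟨Acc₀, Good₀, h3, h4, _, n₁, h5⟩ => ?_⟩
  obtain ⟨h6, h7⟩ := h2 Acc₀ Good₀ h3
  constructor
  · refine (hard_adv hc h6 n₁ (Good' := fun w α => Q (c * w.length) fun v => Good w (α ++ v))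
      ?_).mono ?_ fun w α h => h
    · intro w α hw hα h
      refine Q_mono (fun x u y hx hu hy h8 => h5 w _ hw ?_ h8) h
      simp only [List.length_append, hx, hu, hy]
      have : 4 * c * w.length = c * w.length + (c * w.length + (c * w.length + c * w.length)) := by
        ring
      omega
    · exact fun w α h => Q_mono (fun x u y _ _ _ h8 => h4 w _ h8) h
  · refine (hard_adv hc h7 n₁ (Good' := Good) ?_).mono (fun w α h => h4 w α h) fun w α h => h
    intro w α hw hα h
    refine h5 w α hw (hα.trans ?_) h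
    exact Nat.mul_le_mul_right _ (by omega)

end Pool.Agent.Helper65.BR
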