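import Pool.Agent.Helper65.BR.Main
import Pool.Agent.Helper81.IC.Final

/-!
# Reading heads, cursors and caches
-/

namespace Pool.Agent.Helper65.BR

open Pool.Agent.Helper65.LinSpace Pool.Agent.Helper78.Mpc
open Pool.Agent.Helper81.Gen4 (Q Q_mono)
open Pool.Agent.Helper31.Gen5 (Hard)
open Pool.Agent.Helper81.RP (Ins)
open Pool.Agent.Helper31.SB (idD idD_is reader_sim)

/-- Programs with a cache. -/
theorem sim_cache (c : ℕ) (P : List Ins) (C : ℝ) :
    SimA c (fun w y => ∃ t, Pool.Agent.Helper81.RP.AcceptsAt P w y t)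
      (fun w y => Pool.Agent.Helper81.IC.Within P C w y) :=
  Pool.Agent.Helper81.IC.sim_ram c idD_is (b := 1) (fun w => by simp) (fun w => le_rfl) P C

/-- Programs with a cache, programs with cursors, reading heads. -/
theorem cached (c : ℕ) (hc : 0 < c) :
    ∃ L : Set (List Bool), DLINSPACE L ∧
      (∀ (P : List Ins) (C : ℝ),
        Hard L c (fun w α => ∃ t, Pool.Agent.Helper81.RP.AcceptsAt P w α t)
          (Pool.Agent.Helper81.IC.Within P C) ∧
        Hard L c (fun w α => Q (c * w.length) fun v =>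
            ∃ t, Pool.Agent.Helper81.RP.AcceptsAt P w (α ++ v) t)
          (fun w α => Q (c * w.length) fun v =>
            Pool.Agent.Helper81.IC.Within P C w (α ++ v))) ∧
      (∀ (P : List Ins) (d : ℕ), 0 < d → ∀ C : ℝ,
        Hard L c (fun w α => ∃ t, Pool.Agent.Helper81.RP.AcceptsAt P w α t)
          (Pool.Agent.Helper81.RR.Within P d C) ∧
        Hard L c (fun w α => Q (c * w.length) fun v =>
            ∃ t, Pool.Agent.Helper81.RP.AcceptsAt P w (α ++ v) t)
          (fun w α => Q (c * w.length) fun v =>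
            Pool.Agent.Helper81.RR.Within P d C w (α ++ v))) ∧
      ∀ (K : ℕ) (A : Reader K) (C : ℝ),
        Hard L c (fun w α => ∃ t, A.AcceptsAt w α t) (A.Within C) ∧
        Hard L c (fun w α => Q (c * w.length) fun v => ∃ t, A.AcceptsAt w (α ++ v) t)
          (fun w α => Q (c * w.length) fun v => A.Within C w (α ++ v)) := by
  obtain ⟨L, h1, h2⟩ := hard c hc
  refine ⟨L, h1, fun P C => ?_, fun P d hd C => ?_, fun K A C => ?_⟩
  · exact (h2 _ _ (sim_cache c P C)).symm
  · exact (h2 _ _ (sim_ins c hd P C)).symm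
  · exact (h2 _ _ (reader_sim c A C)).symm

end Pool.Agent.Helper65.BR
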