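import Pool.Agent.Helper65.BR.Hub
import Pool.Agent.Helper86.BR.TRU
import Pool.Agent.Helper94.BR.LSR
import Pool.Agent.Helper96.BR.PAR
import Pool.Agent.Helper14.BR.RUNC
import Pool.Agent.Helper35.BR.CODE
import Pool.Agent.Helper12.BR.WORD
import Pool.Agent.Helper16.BR.ASY
import Pool.Agent.Helper69.BR.SIZ
import Pool.Agent.Helper56.BR.LSP
import Pool.Agent.Helper40.BR.LSK
import Pool.Agent.Helper91.BR.FIN

/-!
# Machines with a memory of blocks: all parts
-/

namespace Pool.Agent.Helper65.BR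

theorem lsk : LSK_stmt :=
  Pool.Agent.Helper40.BR.lsk Pool.Agent.Helper86.BR.tru Pool.Agent.Helper94.BR.lsr
    Pool.Agent.Helper96.BR.PAR Pool.Agent.Helper56.BR.lsp

theorem fin : FIN_stmt :=
  Pool.Agent.Helper91.BR.fin Pool.Agent.Helper86.BR.tru Pool.Agent.Helper96.BR.PAR
    Pool.Agent.Helper14.BR.runc Pool.Agent.Helper35.BR.CODE Pool.Agent.Helper12.BR.WORD
    Pool.Agent.Helper16.BR.asy Pool.Agent.Helper69.BR.siz

end Pool.Agent.Helper65.BR
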