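import Pool.Agent.Helper65.OH.Defs
import Mathlib.Analysis.SpecialFunctions.Pow.Real

/-!
# Massively parallel computation: definitions
-/

namespace Pool.Agent.Helper65.BR

open Pool.Agent.Helper65.LinSpace Pool.Agent.Helper78.Mpc Pool.Agent.Helper28.Ram
open Pool.Agent.Helper65.OH (letW)

/-- A massively parallel machine. There are `2 ^ m` processors, one for every word `x` of length `m`;
each has a local memory, which contains a word, at the start the empty word. The computation consists of
rounds. In a round the processor `x` with the memory `c` sends to every processor `z` a message, the word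
`send (⟨x⟩ ⟨z⟩ c)` (the empty word means no message), and it reads the letters `a` and `b` of the input
word and of the additional word whose index is written in binary as `addr (⟨x⟩ c)`. Its new memory is
`next (⟨x⟩ ⟨c⟩ a b v)`, where `v` is its mailbox: for all messages `u` which were sent to `x` in this
round, in the order of their senders `z`, the words `⟨z⟩ ⟨u⟩`. Here `⟨x⟩` is the self-delimiting code of
`x`. All functions are computed in linear space. -/
structure MPC where
  addr : List Bool → List Bool
  send : List Bool → List Bool
  next : List Bool → List Bool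
  addr_lin : LinComp addr
  send_lin : LinComp send
  next_lin : LinComp next

/-- The words of length `m`, in lexicographic order. -/
def names : ℕ → List (List Bool)
  | 0 => [[]]
  | m + 1 => (names m).map (false :: ·) ++ (names m).map (true :: ·)

namespace MPC

variable (A : MPC)

/-- The message of `x` to `z`, `c` being the memory of `x`, with the name of the sender; the empty word if
there is no message. -/
def mail (x z c : List Bool) : List Bool :=
  if A.send (sd x ++ (sd z ++ c)) = [] then [] else sd x ++ sd (A.send (sd x ++ (sd z ++ c)))

/-- The mailbox of `z`, `M` being the memories of the processors. -/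
def mailbox (m : ℕ) (M : List Bool → List Bool) (z : List Bool) : List Bool :=
  (names m).flatMap fun x => A.mail x z (M x)

/-- The new memory of `x`. -/
def round (w y : List Bool) (m : ℕ) (M : List Bool → List Bool) (x : List Bool) : List Bool :=
  A.next (sd x ++ (sd (M x) ++ (letW w[bval (A.addr (sd x ++ M x))]? ++
    (letW y[bval (A.addr (sd x ++ M x))]? ++ A.mailbox m M x))))

/-- The memories after `k` rounds, on the input word `w` and the additional word `y`. -/
def mem (A : MPC) (w y : List Bool) (m : ℕ) : ℕ → List Bool → List Bool
  | 0 => fun _ => []
  | k + 1 => A.round w y m (A.mem w y m k)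

/-- After `k` rounds the memory of the processor `x` begins with `1`. -/
def AcceptsAt (w y : List Bool) (m : ℕ) (x : List Bool) (k : ℕ) : Prop :=
  x.length = m ∧ (A.mem w y m k x).head? = some true

/-- In `k` rounds, the memories and the mailboxes of all processors, and the addresses, have at most `a`
bits. -/
def Fits (w y : List Bool) (m k a : ℕ) : Prop :=
  ∀ x : List Bool, x.length = m → (∀ t ≤ k, (A.mem w y m t x).length ≤ a) ∧
    ∀ t < k, (A.addr (sd x ++ A.mem w y m t x)).length ≤ a ∧
      (A.mailbox m (A.mem w y m t) x).length ≤ a

/-- The machine accepts the input word `w` of length `n`, with the additional word `y`, with `2 ^ m`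
processors for some `m`, after `k` rounds, with memories and mailboxes of at most `a` bits. For
`l = m + ⌊log₂ n⌋ + 1`: `k ^ 2 l ^ 7 ≤ C (n + 1) ^ 2` and `(a + 1) l ^ 2 ≤ C (n + 1)`. For example,
polynomially many processors with `C n / log ^ 2 n` bits of memory each, and `C n / log ^ (7 / 2) n`
rounds. -/
def Within (C : ℝ) (w y : List Bool) : Prop :=
  ∃ (m : ℕ) (x : List Bool) (k a : ℕ), A.AcceptsAt w y m x k ∧ A.Fits w y m k a ∧
    (k : ℝ) ^ 2 * ((m : ℝ) + ((Nat.log 2 w.length : ℝ) + 1)) ^ 7 ≤ C * ((w.length : ℝ) + 1) ^ 2 ∧
    ((a : ℝ) + 1) * ((m : ℝ) + ((Nat.log 2 w.length : ℝ) + 1)) ^ 2 ≤ C * ((w.length : ℝ) + 1)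

end MPC

end Pool.Agent.Helper65.BR
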