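import Pool.Agent.Helper65.BR.Final2
import Pool.Agent.Helper65.BR.MDefs

/-!
# Massively parallel computation and parallel machines with adaptive reads
-/

namespace Pool.Agent.Helper65.BR

open Pool.Agent.Helper65.LinSpace Pool.Agent.Helper78.Mpc
open Pool.Agent.Helper81.Gen4 (Q Q_mono)
open Pool.Agent.Helper31.Gen5 (Hard)

/-- Both models, with the statement for massively parallel machines as a hypothesis. -/
theorem rounds (c : ℕ) (hc : 0 < c)
    (hM : ∀ (A : MPC) (C : ℝ),
      SimA c (fun w y => ∃ m x k, A.AcceptsAt w y m x k) (A.Within C)) :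
    ∃ L : Set (List Bool), DLINSPACE L ∧
      (∀ (A : MPC) (C : ℝ),
        Hard L c (fun w α => ∃ m x k, A.AcceptsAt w α m x k) (A.Within C) ∧
        Hard L c (fun w α => Q (c * w.length) fun v => ∃ m x k, A.AcceptsAt w (α ++ v) m x k)
          (fun w α => Q (c * w.length) fun v => A.Within C w (α ++ v))) ∧
      ∀ (A : PM) (C : ℝ),
        Hard L c (fun w α => ∃ p R k, A.AcceptsAt w α p R k) (A.Within C) ∧
        Hard L c (fun w α => Q (c * w.length) fun v => ∃ p R k, A.AcceptsAt w (α ++ v) p R k)
          (fun w α => Q (c * w.length) fun v => A.Within C w (α ++ v)) := by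
  obtain ⟨L, h1, h2⟩ := hard c hc
  refine ⟨L, h1, fun A C => ?_, fun A C => ?_⟩
  · exact (h2 _ _ (hM A C)).symm
  · exact (h2 _ _ (SimA.of_all (pm_all c A C))).symm

end Pool.Agent.Helper65.BR
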