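import Pool.Agent.Helper65.BR.Moves
import Pool.Agent.Helper81.RR.Final

/-!
# Reading heads: the theorem for all models
-/

namespace Pool.Agent.Helper65.BR

open Pool.Agent.Helper65.LinSpace Pool.Agent.Helper78.Mpc
open Pool.Agent.Helper81.Gen4 (Q Q_mono)
open Pool.Agent.Helper31.Gen5 (Hard)
open Pool.Agent.Helper81.RP (Ins)
open Pool.Agent.Helper31.SB (idD idD_is reader_sim)
open Pool.Agent.Helper20.BRT (InMoves)

/-- Programs of random access machines. -/
theorem sim_ins (c : ℕ) {d : ℕ} (hd : 0 < d) (P : List Ins) (C : ℝ) :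
    SimA c (fun w y => ∃ t, Pool.Agent.Helper81.RP.AcceptsAt P w y t)
      (fun w y => Pool.Agent.Helper81.RR.Within P d C w y) :=
  Pool.Agent.Helper81.RR.sim_prog c idD_is (b := 1) (fun w => by simp) (fun w => le_rfl) hd P C
    fun A C => reader_sim c A C

/-- **All models**, with the statement for Turing machines as a hypothesis. -/
theorem heads (c : ℕ) (hc : 0 < c)
    (hM : ∀ (k : ℕ) (M : TM k) (C : ℝ),
      SimA c (fun w y => ∃ t, Pool.Agent.Helper31.TMS.AcceptsAt M (w ++ y) t)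
        (fun w y => InMoves M (fun n => C * ((n : ℝ) + 1) ^ (2 : ℝ) /
          ((Nat.log 2 n : ℝ) + 1) ^ 4) (w ++ y))) :
    ∃ L : Set (List Bool), DLINSPACE L ∧
      (∀ (K : ℕ) (A : Reader K) (C : ℝ),
        Hard L c (fun w α => ∃ t, A.AcceptsAt w α t) (A.Within C) ∧
        Hard L c (fun w α => Q (c * w.length) fun v => ∃ t, A.AcceptsAt w (α ++ v) t)
          (fun w α => Q (c * w.length) fun v => A.Within C w (α ++ v))) ∧
      (∀ (P : List Ins) (d : ℕ), 0 < d → ∀ C : ℝ,
        Hard L c (fun w α => ∃ t, Pool.Agent.Helper81.RP.AcceptsAt P w α t)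
          (Pool.Agent.Helper81.RR.Within P d C) ∧
        Hard L c (fun w α => Q (c * w.length) fun v =>
            ∃ t, Pool.Agent.Helper81.RP.AcceptsAt P w (α ++ v) t)
          (fun w α => Q (c * w.length) fun v =>
            Pool.Agent.Helper81.RR.Within P d C w (α ++ v))) ∧
      (∀ (k : ℕ) (M : TM k) (C : ℝ),
        Hard L c (fun w α => ∃ t, Pool.Agent.Helper31.TMS.AcceptsAt M (w ++ α) t)
          (fun w α => InMoves M (fun n => C * ((n : ℝ) + 1) ^ (2 : ℝ) /
            ((Nat.log 2 n : ℝ) + 1) ^ 4) (w ++ α)) ∧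
        Hard L c (fun w α => Q (c * w.length) fun v =>
            ∃ t, Pool.Agent.Helper31.TMS.AcceptsAt M (w ++ (α ++ v)) t)
          (fun w α => Q (c * w.length) fun v =>
            InMoves M (fun n => C * ((n : ℝ) + 1) ^ (2 : ℝ) /
              ((Nat.log 2 n : ℝ) + 1) ^ 4) (w ++ (α ++ v)))) ∧
      ∀ (A : PM) (C : ℝ),
        Hard L c (fun w α => ∃ p R k, A.AcceptsAt w α p R k) (A.Within C) ∧
        Hard L c (fun w α => Q (c * w.length) fun v => ∃ p R k, A.AcceptsAt w (α ++ v) p R k)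
          (fun w α => Q (c * w.length) fun v => A.Within C w (α ++ v)) := by
  obtain ⟨L, h1, h2⟩ := hard c hc
  refine ⟨L, h1, fun K A C => ?_, fun P d hd C => ?_, fun k M C => ?_, fun A C => ?_⟩
  · exact (h2 _ _ (reader_sim c A C)).symm
  · exact (h2 _ _ (sim_ins c hd P C)).symm
  · exact (h2 _ _ (hM k M C)).symm
  · exact (h2 _ _ (SimA.of_all (pm_all c A C))).symm

/-- The first three models. -/
theorem heads3 (c : ℕ) (hc : 0 < c)
    (hM : ∀ (k : ℕ) (M : TM k) (C : ℝ),
      SimA c (fun w y => ∃ t, Pool.Agent.Helper31.TMS.AcceptsAt M (w ++ y) t)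
        (fun w y => InMoves M (fun n => C * ((n : ℝ) + 1) ^ (2 : ℝ) /
          ((Nat.log 2 n : ℝ) + 1) ^ 4) (w ++ y))) :
    ∃ L : Set (List Bool), DLINSPACE L ∧
      (∀ (K : ℕ) (A : Reader K) (C : ℝ),
        Hard L c (fun w α => ∃ t, A.AcceptsAt w α t) (A.Within C) ∧
        Hard L c (fun w α => Q (c * w.length) fun v => ∃ t, A.AcceptsAt w (α ++ v) t)
          (fun w α => Q (c * w.length) fun v => A.Within C w (α ++ v))) ∧
      (∀ (P : List Ins) (d : ℕ), 0 < d → ∀ C : ℝ,
        Hard L c (fun w α => ∃ t, Pool.Agent.Helper81.RP.AcceptsAt P w α t)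
          (Pool.Agent.Helper81.RR.Within P d C) ∧
        Hard L c (fun w α => Q (c * w.length) fun v =>
            ∃ t, Pool.Agent.Helper81.RP.AcceptsAt P w (α ++ v) t)
          (fun w α => Q (c * w.length) fun v =>
            Pool.Agent.Helper81.RR.Within P d C w (α ++ v))) ∧
      ∀ (k : ℕ) (M : TM k) (C : ℝ),
        Hard L c (fun w α => ∃ t, Pool.Agent.Helper31.TMS.AcceptsAt M (w ++ α) t)
          (fun w α => InMoves M (fun n => C * ((n : ℝ) + 1) ^ (2 : ℝ) /
            ((Nat.log 2 n : ℝ) + 1) ^ 4) (w ++ α)) ∧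
        Hard L c (fun w α => Q (c * w.length) fun v =>
            ∃ t, Pool.Agent.Helper31.TMS.AcceptsAt M (w ++ (α ++ v)) t)
          (fun w α => Q (c * w.length) fun v =>
            InMoves M (fun n => C * ((n : ℝ) + 1) ^ (2 : ℝ) /
              ((Nat.log 2 n : ℝ) + 1) ^ 4) (w ++ (α ++ v))) := by
  obtain ⟨L, h1, h2, h3, h4, -⟩ := heads c hc hM
  exact ⟨L, h1, h2, h3, h4⟩

end Pool.Agent.Helper65.BR
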