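import Pool.Agent.Helper31.SB.Final
import Pool.Agent.Helper20.BRT.Final

/-!
# Turing machines with few moves of the work heads
-/

namespace Pool.Agent.Helper65.BR

open Pool.Agent.Helper65.LinSpace Pool.Agent.Helper78.Mpc
open Pool.Agent.Helper92.RE (LD)
open Pool.Agent.Helper31.SB (idD idD_is reader_sim)
open Pool.Agent.Helper20.BRT (InMoves exists_reader)

/-- Transfer of simulations for words `y` which are not too long. -/
theorem SimA.of_short {c : ℕ} {Acc Good Acc' Good' : List Bool → List Bool → Prop}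
    (h : SimA c Acc Good) (h1 : ∀ w y, Acc w y → Acc' w y) (h2 : ∀ w y, Good' w y → Acc' w y)
    (n₀ : ℕ) (h3 : ∀ w y : List Bool, n₀ ≤ w.length → y.length ≤ 4 * c * w.length →
      Good' w y → Good w y) : SimA c Acc' Good' := by
  obtain ⟨Acc₀, Good₀, ⟨g1, e, n₂, g2⟩, h4, h5, n₁, h6⟩ := h
  refine ⟨Acc', Good₀, ⟨fun w y hg => h1 w y (h4 w y (g1 w y hg)), e, n₂, fun w y hw =>
    ⟨fun S hS hne => h1 w y (h4 w y ((g2 w y hw).1 S hS hne)), (g2 w y hw).2⟩⟩,
    fun w y hA => hA, h2, n₀ + n₁, fun w y hw hy hg => ?_⟩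
  exact h6 w y (by omega) hy (h3 w y (by omega) hy hg)

/-- **Turing machines with few moves of the work heads**, on the words `F w`. -/
theorem sim_moves (c : ℕ) {D : LD} {F : List Bool → List Bool} (hF : D.Is F) {b₀ : ℕ}
    (hlen : ∀ w, (F w).length ≤ b₀ * (w.length + 1)) (hle : ∀ w, w.length ≤ (F w).length)
    (k : ℕ) (M : TM k) (C : ℝ) :
    SimA c (fun w y => ∃ t, Pool.Agent.Helper31.TMS.AcceptsAt M (F w ++ y) t)
      (fun w y => InMoves M (fun n => C * ((n : ℝ) + 1) ^ (2 : ℝ) /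
        ((Nat.log 2 n : ℝ) + 1) ^ 4) (F w ++ y)) := by
  obtain ⟨A, C', h1, h2⟩ := exists_reader M hF hlen hle (4 * c) C
  refine (reader_sim c A C').of_short (fun w y ⟨r, hr⟩ => h1 w y r hr)
    (fun w y ⟨t, ht, _⟩ => ⟨t, ht⟩) 0 fun w y _ hy hg => h2 w y hy hg

/-- Turing machines with few moves of the work heads. -/
theorem sim_tm (c k : ℕ) (M : TM k) (C : ℝ) :
    SimA c (fun w y => ∃ t, Pool.Agent.Helper31.TMS.AcceptsAt M (w ++ y) t)
      (fun w y => InMoves M (fun n => C * ((n : ℝ) + 1) ^ (2 : ℝ) /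
        ((Nat.log 2 n : ℝ) + 1) ^ 4) (w ++ y)) :=
  sim_moves c idD_is (b₀ := 1) (fun w => by simp) (fun w => le_rfl) k M C

end Pool.Agent.Helper65.BR
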