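import Pool.Agent.Helper65.OH.Defs
import Mathlib.Analysis.SpecialFunctions.Pow.Real

/-!
# Parallel machines with supersteps: definitions
-/

namespace Pool.Agent.Helper65.BR

open Pool.Agent.Helper65.LinSpace Pool.Agent.Helper78.Mpc Pool.Agent.Helper28.Ram
open Pool.Agent.Helper65.OH (letW)

/-- A parallel machine. Every word `x` is the name of a processor and of its register, which contains a
word; at the start all registers are empty. The computation consists of supersteps. In a superstep
every processor `x` works on its own, with the contents of the registers at the start of the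
superstep: if its register contains `c`, its local state is `init (⟨p⟩ ⟨x⟩ c)`, where the word `p` is the
parameter of the computation; then it makes `R` rounds. In a round the processor in the state `u` reads
the letters `a` and `b` of the input word and of the additional word whose index is written in binary
as `addr u`, and the content `v` of the register `reg u`; its new state is `next (⟨u⟩ a b v)`. After the
rounds, if its state is `u`, its register gets the content `out u`. Here `⟨u⟩` is the self-delimiting
code of `u`. All functions are computed in linear space. -/
structure PM where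
  init : List Bool → List Bool
  addr : List Bool → List Bool
  reg : List Bool → List Bool
  next : List Bool → List Bool
  out : List Bool → List Bool
  init_lin : LinComp init
  addr_lin : LinComp addr
  reg_lin : LinComp reg
  next_lin : LinComp next
  out_lin : LinComp out

namespace PM

/-- The local state of the processor `x` after `j` rounds of a superstep, `M` being the contents of the
registers at the start of the superstep. -/
def loc (A : PM) (w y p : List Bool) (M : List Bool → List Bool) (x : List Bool) : ℕ → List Bool
  | 0 => A.init (sd p ++ (sd x ++ M x))
  | j + 1 => A.next (sd (A.loc w y p M x j) ++ (letW w[bval (A.addr (A.loc w y p M x j))]? ++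
      (letW y[bval (A.addr (A.loc w y p M x j))]? ++ M (A.reg (A.loc w y p M x j)))))

/-- The contents of the registers after `k` supersteps of `R` rounds. -/
def val (A : PM) (w y p : List Bool) (R : ℕ) : ℕ → List Bool → List Bool
  | 0 => fun _ => []
  | k + 1 => fun x => A.out (A.loc w y p (A.val w y p R k) x R)

variable (A : PM)

/-- After `k` supersteps of `R` rounds the content of the register `p` begins with `1`. -/
def AcceptsAt (w y p : List Bool) (R k : ℕ) : Prop := (A.val w y p R k p).head? = some true

/-- The parameter has at most `m` bits. In `k` supersteps of `R` rounds the local states and the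
addresses of the processors with names of at most `m` bits have at most `s` bits, the names of the
registers which they read have at most `m` bits, and the contents of their registers have at most `a`
bits. -/
def Fits (w y p : List Bool) (R k s m a : ℕ) : Prop :=
  p.length ≤ m ∧ ∀ x : List Bool, x.length ≤ m → (∀ t ≤ k, (A.val w y p R t x).length ≤ a) ∧
    ∀ t < k, ∀ j ≤ R, (A.loc w y p (A.val w y p R t) x j).length ≤ s ∧
      (A.addr (A.loc w y p (A.val w y p R t) x j)).length ≤ s ∧
      (A.reg (A.loc w y p (A.val w y p R t) x j)).length ≤ m

/-- The machine accepts the input word `w` of length `n`, with the additional word `y`, for some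
parameter after `k` supersteps of `R` rounds, with at most `2 ^ (m + 1)` processors, local states of at
most `s` bits and registers of at most `a` bits. For `l = m + ⌊log₂ n⌋ + 1`:
`k ^ 2 (R + 1) l ^ 5 ≤ C (n + 1) ^ 2`, `(R + 1) (a + 1) l ^ 2 ≤ C (n + 1)`, and
`s l ^ 2 ≤ C (n + 1)`. -/
def Within (C : ℝ) (w y : List Bool) : Prop :=
  ∃ (p : List Bool) (R k s m a : ℕ), A.AcceptsAt w y p R k ∧ A.Fits w y p R k s m a ∧
    (k : ℝ) ^ 2 * ((R : ℝ) + 1) * ((m : ℝ) + ((Nat.log 2 w.length : ℝ) + 1)) ^ 5 ≤
      C * ((w.length : ℝ) + 1) ^ 2 ∧
    ((R : ℝ) + 1) * ((a : ℝ) + 1) * ((m : ℝ) + ((Nat.log 2 w.length : ℝ) + 1)) ^ 2 ≤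
      C * ((w.length : ℝ) + 1) ∧
    (s : ℝ) * ((m : ℝ) + ((Nat.log 2 w.length : ℝ) + 1)) ^ 2 ≤ C * ((w.length : ℝ) + 1)

end PM

end Pool.Agent.Helper65.BR
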