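import Pool.Agent.Helper65.BR.PDefs
import Pool.Agent.Helper65.BR.Num

/-!
# Parallel machines with supersteps: the machines on numbers
-/

namespace Pool.Agent.Helper65.BR

open Pool.Agent.Helper65.LinSpace Pool.Agent.Helper78.Mpc Pool.Agent.Helper28.Ram Finset
open Pool.Agent.Helper65.RT (qT CT)

/-- The codes of the functions of a parallel machine, the input, and the bounds. States, names and
contents are coded by the numbers of the words; the number `0` stands for failure. -/
structure Prp where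
  eI : ℕ
  eA : ℕ
  eR : ℕ
  eN : ℕ
  eO : ℕ
  Λ : ℕ
  β : ℕ
  M : ℕ
  x : ℕ
  y : ℕ
  /-- the length of local states and addresses -/
  S : ℕ
  /-- the length of contents -/
  H : ℕ
  /-- the length of names -/
  Z : ℕ
  /-- the number of rounds -/
  R : ℕ
  E : ℕ
  G : ℕ
  K : ℕ
  /-- the number of the parameter word -/
  p : ℕ

namespace Prp

variable (P : Prp)

/-- The address of the letters which are read in the state `u`. -/
def adN (u : ℕ) : ℕ := fnN P.eA P.S P.Λ P.β P.M u

/-- The name of the register which is read in the state `u`. -/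
def rgN (u : ℕ) : ℕ := fnN P.eR P.Z P.Λ P.β P.M u

/-- The number of the word which the function `next` gets. -/
def inN (u v : ℕ) : ℕ :=
  catN (sdN u) (catN (lwN (letN P.x (bvalN (P.adN u)))) (catN (lwN (letN P.y (bvalN (P.adN u)))) v))

/-- The new state, if `v` is the content which is read. -/
def nxN (u v : ℕ) : ℕ :=
  ifz (P.adN u) 0 (ifz (P.rgN u) 0 (fnN P.eN P.S P.Λ P.β P.M (P.inN u v)))

/-- The state of the processor `x` at the start of a superstep. -/
def iniN (x c : ℕ) : ℕ := fnN P.eI P.S P.Λ P.β P.M (catN (sdN P.p) (catN (sdN x) c))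

/-- The new content of the register of a processor in the state `u`. -/
def outN (u : ℕ) : ℕ := fnN P.eO P.H P.Λ P.β P.M u

/-- The state of the processor `x` after `j` rounds; `Z` codes the own content and the contents which
are read. -/
def lcN (x Z j : ℕ) : ℕ :=
  nrec (P.iniN x (dig (2 ^ (P.H + 1)) Z 0)) (fun j u => P.nxN u (dig (2 ^ (P.H + 1)) Z (1 + j))) j

/-- The parallel machine on numbers. -/
def rt : RT.Mach where
  σ := P.Z + 1
  a := P.H + 1
  b := P.H + 1
  E := P.E
  G := P.G
  K := P.K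
  q x i Z := ifz i x (P.rgN (P.lcN x Z (i - 1))) % 2 ^ (P.Z + 1)
  g _ _ _ v := v % 2 ^ (P.H + 1)
  o x Z := P.outN (P.lcN x Z P.R)
  t0 _ := 1
  root := P.p % 2 ^ (P.Z + 1)

end Prp

/-! ### The parameters

The bounds `s`, `a`, `m`, `R`, `k` and the number of the events of a group are the digits `0`, …, `5` of
`T`, in base `n + 2`. -/

/-- The number of the groups, if it is admissible. -/
def gP (n T : ℕ) : ℕ := dig (n + 2) T 3 / dig (n + 2) T 5 + 1

/-- `1` if the parameters are admissible. -/
def oP (n T : ℕ) : ℕ :=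
  lt01 0 (dig (n + 2) T 5) *
    (le01 (gP n T * ((bT n T 1 + 1) * dig (n + 2) T 5) + dig (n + 2) T 5 * (bT n T 1 + 1))
        (4 * qT n) *
      (le01 (dig (n + 2) T 4 * (gP n T + 2)) (4 * qT n) *
        (le01 ((dig (n + 2) T 4 + 1) * (bT n T 2 + 1)) (4 * qT n) *
          le01 ((dig (n + 2) T 4 + 1) * ((bT n T 2 + 1) * dig (n + 2) T 5)) (4 * (n + 1)))))

/-- The parameters for the input `x`, `y`, the bounds coded by `T`, and the parameter word `p`. -/
def prp (e x y T p : ℕ) : Prp where
  eI := (Nat.unpair (Nat.unpair e).1).1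
  eA := (Nat.unpair (Nat.unpair e).1).2
  eR := (Nat.unpair (Nat.unpair e).2).1
  eN := (Nat.unpair (Nat.unpair (Nat.unpair e).2).2).1
  eO := (Nat.unpair (Nat.unpair (Nat.unpair e).2).2).2
  Λ := LW (Nat.log 2 x)
  β := 2 ^ (2 * ll (Nat.log 2 x))
  M := CR x
  x := x
  y := y
  S := bT (Nat.log 2 x) T 0
  H := bT (Nat.log 2 x) T 1
  Z := bT (Nat.log 2 x) T 2
  R := dig (Nat.log 2 x + 2) T 3
  E := ifz (oP (Nat.log 2 x) T) 1 (dig (Nat.log 2 x + 2) T 5)
  G := ifz (oP (Nat.log 2 x) T) 1 (gP (Nat.log 2 x) T)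
  K := ifz (oP (Nat.log 2 x) T) 0 (dig (Nat.log 2 x + 2) T 4)
  p := p

/-- A number which is not `0` if the machine is found to accept for some parameter word. -/
def accP (s : RT.Sim) (e x y T : ℕ) : ℕ :=
  ∑ p ∈ range (2 ^ (bT (Nat.log 2 x) T 2 + 1)), lt01 0 p *
    accN (s.sim (Nat.log 2 x) (prp e x y T p).rt)

/-- The number of codes of bounds. -/
def NP (x : ℕ) : ℕ := (Nat.log 2 x + 2) ^ 6

end Pool.Agent.Helper65.BR
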